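import Pool.Agent.D0H69.SM.Abt

/-!
# Descent for elementary abelian three-extensions: no new classes
-/

set_option autoImplicit false
set_option linter.unusedVariables false
set_option linter.unusedSectionVars false

open scoped Classical

namespace Pool.Agent.D0H69.SM

variable {G : Type} [Group G] [TopologicalSpace G] [IsTopologicalGroup G]

/-- the cocycles of the locally trivial classes -/
structure Sh (χ : G → ℤ_[3]) (𝒮 : Set (Set G)) (H : Set G) (c : G → ℤ_[3]) : Prop where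
  cont : Continuous c
  co : Co χ H c
  loc : ∀ D ∈ 𝒮, Cb χ (D ∩ H) c

/-- up to powers of three all classes over the smaller group `F ∩ ker a` are restrictions -/
def Nw (χ : G → ℤ_[3]) (𝒮 : Set (Set G)) (F : Set G) (a : G → ZMod 3) : Prop :=
  ∀ c : G → ℤ_[3], Sh χ 𝒮 {σ | σ ∈ F ∧ a σ = 0} c → ∃ (n : ℕ) (c' : G → ℤ_[3]), Sh χ 𝒮 F c' ∧
    ∃ z : ℤ_[3], ∀ σ ∈ F, a σ = 0 → 3 ^ n * c σ = c' σ + (χ σ - 1) * z

section
variable {χ : G → ℤ_[3]} {𝒮 : Set (Set G)}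

lemma Sh.mono {H H' : Set G} {c : G → ℤ_[3]} (h : Sh χ 𝒮 H c) (hH : H' ⊆ H) : Sh χ 𝒮 H' c where
  cont := h.cont
  co := fun σ hσ τ hτ => h.co σ (hH hσ) τ (hH hτ)
  loc := fun D hD => by
    obtain ⟨z, hz⟩ := h.loc D hD
    exact ⟨z, fun σ hσ => hz σ ⟨hσ.1, hH hσ.2⟩⟩

lemma Sh.smul {H : Set G} {c : G → ℤ_[3]} (h : Sh χ 𝒮 H c) (k : ℤ_[3]) :
    Sh χ 𝒮 H (fun σ => k * c σ) where
  cont := continuous_const.mul h.cont
  co := fun σ hσ τ hτ => by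
    show k * c (σ * τ) = _
    rw [h.co σ hσ τ hτ]
    ring
  loc := fun D hD => by
    obtain ⟨z, hz⟩ := h.loc D hD
    exact ⟨k * z, fun σ hσ => by
      show k * c σ = _
      rw [hz σ hσ]
      ring⟩

lemma Sh.add {H : Set G} {c c' : G → ℤ_[3]} (h : Sh χ 𝒮 H c) (h' : Sh χ 𝒮 H c') :
    Sh χ 𝒮 H (fun σ => c σ + c' σ) where
  cont := h.cont.add h'.cont
  co := fun σ hσ τ hτ => by
    show c (σ * τ) + c' (σ * τ) = _
    rw [h.co σ hσ τ hτ, h'.co σ hσ τ hτ]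
    ring
  loc := fun D hD => by
    obtain ⟨z, hz⟩ := h.loc D hD
    obtain ⟨z', hz'⟩ := h'.loc D hD
    exact ⟨z + z', fun σ hσ => by
      show c σ + c' σ = _
      rw [hz σ hσ, hz' σ hσ]
      ring⟩

lemma Sh.zero (H : Set G) : Sh χ 𝒮 H (fun _ => 0) where
  cont := continuous_const
  co := fun σ _ τ _ => by ring
  loc := fun D _ => ⟨0, fun σ _ => by ring⟩

variable (hS : Sys χ 𝒮)

include hS in
/-- **Two homomorphisms.** -/
theorem nw_two {U : Set G} (hU : Sg U) {a b : G → ZMod 3} (ha : Hm a) (hb : Hm b)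
    {s t : G} (hs : s ∈ U) (ht : t ∈ U) (as : a s = 1) (bs : b s = 0) (at' : a t = 0)
    (bt : b t = 1) (hZ : ∀ q : ZMod 3, Nw χ 𝒮 U (fun σ => a σ + q * b σ)) :
    Nw χ 𝒮 {σ | σ ∈ U ∧ b σ = 0} a := by
  set d : G → ZMod 3 × ZMod 3 := fun σ => (a σ, b σ) with hd
  set T : ZMod 3 × ZMod 3 → G := fun i => s ^ i.1.val * t ^ i.2.val with hT
  have hdm : ∀ σ τ, d (σ * τ) = d σ + d τ := fun σ τ => by
    rw [hd]
    exact Prod.ext (ha.mul σ τ) (hb.mul σ τ)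
  have hdl : IsLocallyConstant d := ha.lc.prodMk hb.lc
  have hpow : ∀ σ ∈ U, ∀ n : ℕ, σ ^ n ∈ U := by
    intro σ hσ n
    induction n with
    | zero => rw [pow_zero]; exact hU.one
    | succ n ih => rw [pow_succ]; exact hU.mul _ ih _ hσ
  have hTd : ∀ i, d (T i) = i := by
    intro i
    refine Prod.ext ?_ ?_
    · show a (s ^ i.1.val * t ^ i.2.val) = i.1
      rw [ha.mul, ha.pow, ha.pow, as, at', mul_one, mul_zero, add_zero, ZMod.natCast_zmod_val]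
    · show b (s ^ i.1.val * t ^ i.2.val) = i.2
      rw [hb.mul, hb.pow, hb.pow, bs, bt, mul_one, mul_zero, zero_add, ZMod.natCast_zmod_val]
  have hTU : ∀ i, T i ∈ U := fun i => hU.mul _ (hpow s hs _) _ (hpow t ht _)
  have hd0 : ∀ σ, d σ = 0 ↔ a σ = 0 ∧ b σ = 0 := fun σ => Prod.ext_iff
  have hset : {σ | σ ∈ {σ | σ ∈ U ∧ b σ = 0} ∧ a σ = 0} = {σ | σ ∈ U ∧ d σ = 0} := by
    ext σ
    constructor
    · rintro ⟨⟨h1, h2⟩, h3⟩
      exact ⟨h1, (hd0 σ).2 ⟨h3, h2⟩⟩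
    · rintro ⟨h1, h2⟩
      obtain ⟨h3, h4⟩ := (hd0 σ).1 h2
      exact ⟨⟨h1, h4⟩, h3⟩
  intro c hc
  rw [hset] at hc
  have hQ : ∀ i : ZMod 3 × ZMod 3, i + i + i = 0 := by decide
  have hsub : ∀ p : ZMod 3 × ZMod 3, ∀ i ∈ ln p, ∀ j ∈ ln p, i - j ∈ ln p := by
    intro p i hi j hj
    rw [mem_ln] at hi hj ⊢
    have e1 : (i - j).1 = i.1 - j.1 := rfl
    have e2 : (i - j).2 = i.2 - j.2 := rfl
    rw [e1, e2]
    linear_combination hi - hj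
  have hcor : ∀ R : Finset (ZMod 3 × ZMod 3), 0 ∈ R → (∀ i ∈ R, ∀ j ∈ R, i - j ∈ R) →
      Sh χ 𝒮 {σ | σ ∈ U ∧ d σ ∈ R} (cor χ d T R c) := fun R h0 hR =>
    ⟨cor_cont hdl R hc.cont, cor_co hS hU hdm hTd hTU hR hc.co,
      cor_loc hS hU hdm hdl hTd hTU h0 hR hQ hc.co hc.loc⟩
  have hln0 : ∀ p : ZMod 3 × ZMod 3, 0 ∈ ln p := fun p => mem_ln.2 (by simp)
  have hA : ∀ q : ZMod 3, ∃ (n : ℕ) (c' : G → ℤ_[3]), Sh χ 𝒮 U c' ∧
      ∃ z : ℤ_[3], ∀ σ ∈ U, d σ = 0 → 3 ^ n * cor χ d T (ln (1, q)) c σ = c' σ + (χ σ - 1) * z := by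
    intro q
    have h1 := hcor (ln (1, q)) (hln0 _) (hsub _)
    have e : {σ | σ ∈ U ∧ d σ ∈ ln (1, q)} = {σ | σ ∈ U ∧ a σ + q * b σ = 0} := by
      ext σ
      refine and_congr_right fun _ => ?_
      rw [mem_ln]
      show 1 * a σ + q * b σ = 0 ↔ _
      rw [one_mul]
    rw [e] at h1
    obtain ⟨n, c', hc', z, hz⟩ := hZ q _ h1
    refine ⟨n, c', hc', z, fun σ hσ h0 => hz σ hσ ?_⟩
    obtain ⟨h2, h3⟩ := (hd0 σ).1 h0
    show a σ + q * b σ = 0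
    rw [h2, h3, mul_zero, add_zero]
  obtain ⟨n1, c1, hc1, z1, h1⟩ := hA 0
  obtain ⟨n2, c2, hc2, z2, h2⟩ := hA 1
  obtain ⟨n3, c3, hc3, z3, h3⟩ := hA 2
  have hF := hcor (ln (0, 1)) (hln0 _) (hsub _)
  have e : {σ | σ ∈ U ∧ d σ ∈ ln (0, 1)} = {σ | σ ∈ U ∧ b σ = 0} := by
    ext σ
    refine and_congr_right fun _ => ?_
    rw [mem_ln]
    show 0 * a σ + 1 * b σ = 0 ↔ _
    rw [zero_mul, one_mul, zero_add]
  rw [e] at hF
  have hUn := hcor Finset.univ (Finset.mem_univ _) (fun _ _ _ _ => Finset.mem_univ _)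
  have hsubU : {σ | σ ∈ U ∧ b σ = 0} ⊆ U := fun σ hσ => hσ.1
  have hsubU' : {σ | σ ∈ U ∧ b σ = 0} ⊆ {σ | σ ∈ U ∧ d σ ∈ Finset.univ} :=
    fun σ hσ => ⟨hσ.1, Finset.mem_univ _⟩
  have hT0 : T 0 = 1 := by
    show s ^ ((0 : ZMod 3)).val * t ^ ((0 : ZMod 3)).val = 1
    rw [ZMod.val_zero, pow_zero, pow_zero, mul_one]
  have hval : ∀ (R : Finset (ZMod 3 × ZMod 3)) (σ : G), d σ = 0 →
      cor χ d T R c σ = ∑ i ∈ R, χ (T i) * c ((T i)⁻¹ * σ * T i) := by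
    intro R σ h4
    unfold cor xx
    simp only [h4, sub_zero]
  have key : ∀ σ ∈ U, d σ = 0 → 3 * c σ = cor χ d T (ln (1, 0)) c σ + cor χ d T (ln (0, 1)) c σ +
      cor χ d T (ln (1, 1)) c σ + cor χ d T (ln (1, 2)) c σ - cor χ d T Finset.univ c σ := by
    intro σ hσ h0
    rw [hval _ σ h0, hval _ σ h0, hval _ σ h0, hval _ σ h0, hval _ σ h0]
    have h6 := sum_ln (fun i => χ (T i) * c ((T i)⁻¹ * σ * T i))
    simp only [hT0, hS.one, one_mul, inv_one, mul_one] at h6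
    linear_combination -h6
  refine ⟨n1 + n2 + n3 + 1, _, ((((hc1.mono hsubU).smul (3 ^ (n2 + n3))).add
    ((hc2.mono hsubU).smul (3 ^ (n1 + n3)))).add ((hc3.mono hsubU).smul (3 ^ (n1 + n2)))).add
    ((hF.smul (3 ^ (n1 + n2 + n3))).add ((hUn.mono hsubU').smul (-(3 ^ (n1 + n2 + n3))))),
    3 ^ (n2 + n3) * z1 + 3 ^ (n1 + n3) * z2 + 3 ^ (n1 + n2) * z3, ?_⟩
  intro σ hσ h0
  have hd' : d σ = 0 := (hd0 σ).2 ⟨h0, hσ.2⟩
  have k1 := h1 σ hσ.1 hd'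
  have k2 := h2 σ hσ.1 hd'
  have k3 := h3 σ hσ.1 hd'
  have k4 := key σ hσ.1 hd'
  have e1 : (3 : ℤ_[3]) ^ (n1 + n2 + n3 + 1) * c σ = 3 ^ (n1 + n2 + n3) * (3 * c σ) := by ring
  rw [e1, k4]
  show _ = ((3 ^ (n2 + n3) * c1 σ + 3 ^ (n1 + n3) * c2 σ) + 3 ^ (n1 + n2) * c3 σ) +
    (3 ^ (n1 + n2 + n3) * cor χ d T (ln (0, 1)) c σ +
      -(3 ^ (n1 + n2 + n3)) * cor χ d T Finset.univ c σ) + _
  linear_combination (3 : ℤ_[3]) ^ (n2 + n3) * k1 + 3 ^ (n1 + n3) * k2 + 3 ^ (n1 + n2) * k3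

include hS in
/-- **No new classes.** -/
theorem rel (m : ℕ) : ∀ (a₀ : G → ZMod 3) (a : Fin m → G → ZMod 3), Hm a₀ → (∀ i, Hm (a i)) →
    (∀ x : Fin m → ZMod 3, Zero χ 𝒮 {σ | a₀ σ + ∑ i, x i * a i σ = 0}) →
    Nw χ 𝒮 {σ | ∀ i, a i σ = 0} a₀ := by
  induction m with
  | zero =>
    intro a₀ a ha₀ ha hZ c hc
    have h1 := hZ Fin.elim0
    have e : {σ : G | a₀ σ + ∑ i : Fin 0, (Fin.elim0 i : ZMod 3) * a i σ = 0} =
        {σ | σ ∈ {σ : G | ∀ i, a i σ = 0} ∧ a₀ σ = 0} := by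
      ext σ
      simp only [Finset.univ_eq_empty, Finset.sum_empty, add_zero, Set.mem_ofPred_eq]
      exact ⟨fun h => ⟨fun i => i.elim0, h⟩, fun h => h.2⟩
    rw [e] at h1
    obtain ⟨z, hz⟩ := h1 c hc.cont hc.co hc.loc
    exact ⟨0, _, Sh.zero _, z, fun σ hσ h0 => by rw [pow_zero, one_mul, zero_add, hz σ ⟨hσ, h0⟩]⟩
  | succ m ih =>
    intro a₀ a ha₀ ha hZ
    set U : Set G := {σ | ∀ i : Fin m, a i.succ σ = 0} with hU
    have hUs : Sg U := sg_ker fun i => ha _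
    have hF : {σ : G | ∀ i, a i σ = 0} = {σ | σ ∈ U ∧ a 0 σ = 0} := by
      ext σ
      constructor
      · intro h
        exact ⟨fun i => h _, h 0⟩
      · rintro ⟨h1, h2⟩ i
        exact Fin.cases h2 (fun i => h1 i) i
    have hp : ∀ q : ZMod 3, Nw χ 𝒮 U (fun σ => a₀ σ + q * a 0 σ) := by
      intro q
      have hlin : Hm (fun σ => a₀ σ + q * a 0 σ) := by
        have := ha₀.lin (ha 0) 1 q
        simpa only [one_mul] using this
      refine ih _ (fun i => a i.succ) hlin (fun i => ha _) fun x => ?_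
      have h2 := hZ (Fin.cons q x)
      have e : {σ : G | a₀ σ + ∑ i, (Fin.cons q x : Fin (m + 1) → ZMod 3) i * a i σ = 0} =
          {σ | a₀ σ + q * a 0 σ + ∑ i : Fin m, x i * a i.succ σ = 0} := by
        ext σ
        simp only [Set.mem_ofPred_eq]
        rw [Fin.sum_univ_succ]
        simp only [Fin.cons_zero, Fin.cons_succ]
        rw [add_assoc]
      rw [e] at h2
      exact h2
    rw [hF]
    have hsq : ∀ x : ZMod 3, x ≠ 0 → x * x = 1 := by decide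
    by_cases hs : ∃ s ∈ U, a 0 s = 0 ∧ a₀ s ≠ 0
    · have hpow : ∀ σ ∈ U, ∀ n : ℕ, σ ^ n ∈ U := by
        intro σ hσ n
        induction n with
        | zero => rw [pow_zero]; exact hUs.one
        | succ n ih => rw [pow_succ]; exact hUs.mul _ ih _ hσ
      obtain ⟨s, hs, hs1, hs0⟩ := hs
      by_cases ht : ∃ t ∈ U, a₀ t = 0 ∧ a 0 t ≠ 0
      · obtain ⟨t, ht, ht0, ht1⟩ := ht
        refine nw_two hS hUs ha₀ (ha 0) (s := s ^ (a₀ s).val) (t := t ^ (a 0 t).val)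
          (hpow s hs _) (hpow t ht _) ?_ ?_ ?_ ?_ hp
        · rw [ha₀.pow, ZMod.natCast_zmod_val, hsq _ hs0]
        · rw [(ha 0).pow, hs1, mul_zero]
        · rw [ha₀.pow, ht0, mul_zero]
        · rw [(ha 0).pow, ZMod.natCast_zmod_val, hsq _ ht1]
      · push Not at ht
        have h1 : ∀ σ ∈ U, a 0 σ = 0 := by
          intro σ hσ
          have h2 := ht (σ * s ^ (-(a₀ σ) * a₀ s).val) (hUs.mul _ hσ _ (hpow s hs _)) (by
            rw [ha₀.mul, ha₀.pow, ZMod.natCast_zmod_val, mul_assoc, hsq _ hs0]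
            ring)
          rw [(ha 0).mul, (ha 0).pow, hs1, mul_zero, add_zero] at h2
          exact h2
        have e : {σ | σ ∈ U ∧ a 0 σ = 0} = U := by
          ext σ
          exact ⟨fun h => h.1, fun h => ⟨h, h1 σ h⟩⟩
        rw [e]
        have h2 := hp 0
        simp only [zero_mul, add_zero] at h2
        exact h2
    · push Not at hs
      intro c hc
      have e : {σ | σ ∈ {σ | σ ∈ U ∧ a 0 σ = 0} ∧ a₀ σ = 0} = {σ | σ ∈ U ∧ a 0 σ = 0} := by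
        ext σ
        exact ⟨fun h => h.1, fun h => ⟨h, hs σ h.1 h.2⟩⟩
      rw [e] at hc
      exact ⟨0, c, hc, 0, fun σ _ _ => by rw [pow_zero, one_mul, mul_zero, add_zero]⟩

end

end Pool.Agent.D0H69.SM
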