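import Mathlib

/-!
# Descent for elementary abelian three-extensions: the group theory

`χ` is a character of `G` with values in `ℤ_3` and `𝒮` a family of subsets (decomposition and inertia groups)
which is stable under conjugation. `Zero χ 𝒮 H`: the cocycles on `H` which are coboundaries on the `D ∩ H`,
`D ∈ 𝒮`, are coboundaries.
-/

set_option autoImplicit false
set_option linter.unusedVariables false
set_option linter.unusedSectionVars false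

open scoped Classical

namespace Pool.Agent.D0H69.SM

variable {G : Type} [Group G] [TopologicalSpace G] [IsTopologicalGroup G]

/-- coboundary on a set -/
def Cb (χ : G → ℤ_[3]) (S : Set G) (c : G → ℤ_[3]) : Prop :=
  ∃ z : ℤ_[3], ∀ σ ∈ S, c σ = (χ σ - 1) * z

/-- cocycle on a set -/
def Co (χ : G → ℤ_[3]) (H : Set G) (c : G → ℤ_[3]) : Prop :=
  ∀ σ ∈ H, ∀ τ ∈ H, c (σ * τ) = c σ + χ σ * c τ

/-- the group of locally trivial classes vanishes -/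
def Zero (χ : G → ℤ_[3]) (𝒮 : Set (Set G)) (H : Set G) : Prop :=
  ∀ c : G → ℤ_[3], Continuous c → Co χ H c → (∀ D ∈ 𝒮, Cb χ (D ∩ H) c) → Cb χ H c

/-- the data -/
structure Sys (χ : G → ℤ_[3]) (𝒮 : Set (Set G)) : Prop where
  cont : Continuous χ
  one : χ 1 = 1
  mul : ∀ σ τ, χ (σ * τ) = χ σ * χ τ
  conj : ∀ D ∈ 𝒮, ∀ g : G, ∃ D' ∈ 𝒮, ∀ σ ∈ D, g⁻¹ * σ * g ∈ D'
  cube : ∀ D ∈ 𝒮, ∀ σ ∈ D, σ * σ * σ ∈ D
  ex : ∃ D ∈ 𝒮, ∃ σ ∈ D, χ (σ * σ * σ) ≠ 1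

/-- closed under multiplication, inversion, with exponent three over it -/
structure Sg (H : Set G) : Prop where
  mul : ∀ σ ∈ H, ∀ τ ∈ H, σ * τ ∈ H
  inv : ∀ σ ∈ H, σ⁻¹ ∈ H
  one : (1 : G) ∈ H
  cube : ∀ σ : G, σ * σ * σ ∈ H

lemma nz (x : ℤ_[3]) : 1 + x + x * x ≠ 0 := by
  intro h
  have h1 : (2 * x + 1) * (2 * x + 1) = -3 := by linear_combination 4 * h
  have h2 : ‖(2 * x + 1 : ℤ_[3])‖ * ‖(2 * x + 1 : ℤ_[3])‖ = 1 / 3 := by
    rw [← norm_mul, h1, norm_neg]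
    have := PadicInt.norm_p (p := 3)
    simpa using this
  set y : ℤ_[3] := 2 * x + 1 with hy
  have hy0 : y ≠ 0 := by
    rintro h0
    rw [h0] at h2
    norm_num at h2
  have h3 := PadicInt.norm_eq_zpow_neg_valuation hy0
  rw [h3] at h2
  have h4 : ((3 : ℕ) : ℝ) ^ (-(y.valuation : ℤ)) * ((3 : ℕ) : ℝ) ^ (-(y.valuation : ℤ)) =
      ((3 : ℕ) : ℝ) ^ (-1 : ℤ) := by
    rw [h2]
    norm_num
  rw [← zpow_add₀ (by norm_num)] at h4
  have h5 := zpow_right_injective₀ (a := ((3 : ℕ) : ℝ)) (by norm_num) (by norm_num) h4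
  omega

section
variable {χ : G → ℤ_[3]} {𝒮 : Set (Set G)} (hS : Sys χ 𝒮)

include hS in
lemma co_cube {H : Set G} (hH : ∀ σ ∈ H, ∀ τ ∈ H, σ * τ ∈ H) {c : G → ℤ_[3]} (hc : Co χ H c)
    {σ : G} (hσ : σ ∈ H) : c (σ * σ * σ) = (1 + χ σ + χ σ * χ σ) * c σ := by
  rw [hc _ (hH _ hσ _ hσ) _ hσ, hc _ hσ _ hσ, hS.mul]
  ring

include hS in
/-- a cocycle which vanishes at the cube vanishes -/
lemma co_zero {H : Set G} (hH : ∀ σ ∈ H, ∀ τ ∈ H, σ * τ ∈ H) {c : G → ℤ_[3]} (hc : Co χ H c)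
    {σ : G} (hσ : σ ∈ H) (h0 : c (σ * σ * σ) = 0) : c σ = 0 := by
  rw [co_cube hS hH hc hσ] at h0
  exact (mul_eq_zero.1 h0).resolve_left (nz _)

include hS in
lemma co_sub {H : Set G} {c : G → ℤ_[3]} (hc : Co χ H c) (z : ℤ_[3]) :
    Co χ H (fun σ => c σ - (χ σ - 1) * z) := by
  intro σ hσ τ hτ
  show c (σ * τ) - _ = _
  rw [hc σ hσ τ hτ, hS.mul]
  ring

include hS in
/-- **Going down.** -/
theorem desc {A U : Set G} (hAU : A ⊆ U) (hU : ∀ σ ∈ U, ∀ τ ∈ U, σ * τ ∈ U)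
    (h3 : ∀ σ ∈ U, σ * σ * σ ∈ A) (h : Zero χ 𝒮 A) : Zero χ 𝒮 U := by
  intro c hc hco hloc
  obtain ⟨z, hz⟩ := h c hc (fun σ hσ τ hτ => hco σ (hAU hσ) τ (hAU hτ)) (fun D hD => by
    obtain ⟨z, hz⟩ := hloc D hD
    exact ⟨z, fun σ hσ => hz σ ⟨hσ.1, hAU hσ.2⟩⟩)
  refine ⟨z, fun σ hσ => ?_⟩
  have h1 := co_zero hS hU (co_sub hS hco z) hσ (by
    show c (σ * σ * σ) - _ = 0
    rw [hz _ (h3 σ hσ), sub_self])
  exact sub_eq_zero.1 h1

/-! ### the corestriction -/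

section cor
variable {Q : Type} [AddCommGroup Q] [Fintype Q]
  {d : G → Q} {T : Q → G} {U : Set G} (hU : Sg U)
  (hd : ∀ σ τ, d (σ * τ) = d σ + d τ) (hlc : IsLocallyConstant d) (hT : ∀ i, d (T i) = i)
  (hTU : ∀ i, T i ∈ U)

/-- the argument -/
def xx (d : G → Q) (T : Q → G) (i : Q) (σ : G) : G := (T i)⁻¹ * σ * T (i - d σ)

/-- the corestriction to the preimage of `R` -/
noncomputable def cor (χ : G → ℤ_[3]) (d : G → Q) (T : Q → G) (R : Finset Q) (c : G → ℤ_[3]) (σ : G) :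
    ℤ_[3] := ∑ i ∈ R, χ (T i) * c (xx d T i σ)

include hd in
lemma d_one : d 1 = 0 := by
  have := hd 1 1
  rw [mul_one] at this
  exact left_eq_add.1 this

include hd in
lemma d_inv (σ : G) : d σ⁻¹ = -d σ := by
  have := hd σ σ⁻¹
  rw [mul_inv_cancel, d_one hd] at this
  exact (neg_eq_of_add_eq_zero_right this.symm).symm

include hd hT in
lemma xx_d (i : Q) (σ : G) : d (xx d T i σ) = 0 := by
  unfold xx
  rw [hd, hd, d_inv hd, hT, hT]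
  abel

include hU hTU in
lemma xx_U (i : Q) {σ : G} (hσ : σ ∈ U) : xx d T i σ ∈ U :=
  hU.mul _ (hU.mul _ (hU.inv _ (hTU i)) _ hσ) _ (hTU _)

include hd in
lemma xx_mul (i : Q) (σ τ : G) : xx d T i (σ * τ) = xx d T i σ * xx d T (i - d σ) τ := by
  unfold xx
  rw [hd, sub_sub]
  group

include hS hd hT in
lemma xx_chi (i : Q) (σ : G) : χ (T i) * χ (xx d T i σ) = χ σ * χ (T (i - d σ)) := by
  unfold xx
  rw [← hS.mul, ← hS.mul]
  congr 1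
  group

include hlc in
lemma cor_cont (R : Finset Q) {c : G → ℤ_[3]} (hc : Continuous c) : Continuous (cor χ d T R c) := by
  unfold cor
  refine continuous_finsetSum _ fun i _ => continuous_const.mul (hc.comp ?_)
  unfold xx
  refine (continuous_const.mul continuous_id).mul ?_
  have h1 : IsLocallyConstant (fun σ => T (i - d σ)) := hlc.comp (fun q => T (i - q))
  exact h1.continuous

include hS hU hd hT hTU in
lemma cor_co {R : Finset Q} (hR : ∀ i ∈ R, ∀ j ∈ R, i - j ∈ R) {c : G → ℤ_[3]}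
    (hc : Co χ {σ | σ ∈ U ∧ d σ = 0} c) : Co χ {σ | σ ∈ U ∧ d σ ∈ R} (cor χ d T R c) := by
  rintro σ ⟨hσ, hσR⟩ τ ⟨hτ, hτR⟩
  unfold cor
  have h1 : ∑ i ∈ R, χ (T i) * c (xx d T i (σ * τ)) =
      ∑ i ∈ R, χ (T i) * c (xx d T i σ) +
        χ σ * ∑ i ∈ R, χ (T (i - d σ)) * c (xx d T (i - d σ) τ) := by
    rw [Finset.mul_sum, ← Finset.sum_add_distrib]
    refine Finset.sum_congr rfl fun i hi => ?_
    rw [xx_mul hd, hc _ ⟨xx_U hU hTU i hσ, xx_d hd hT i σ⟩ _ ⟨xx_U hU hTU _ hτ, xx_d hd hT _ τ⟩,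
      mul_add, ← mul_assoc, xx_chi hS hd hT]
    ring
  rw [h1]
  congr 2
  refine Finset.sum_bij (fun i _ => i - d σ) (fun i hi => hR i hi _ hσR) (fun i _ j _ h => ?_)
    (fun j hj => ⟨j + d σ, ?_, by abel⟩) (fun i _ => rfl)
  · exact sub_left_injective h
  · have h0 : (0 : Q) ∈ R := by
      have := hR j hj j hj
      rwa [sub_self] at this
    have h2 := hR 0 h0 _ hσR
    have h3 := hR j hj _ h2
    rwa [zero_sub, sub_neg_eq_add] at h3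

include hS hU hd hlc hT hTU in
/-- the local conditions for the corestriction -/
theorem cor_loc {R : Finset Q} (h0 : (0 : Q) ∈ R) (hR : ∀ i ∈ R, ∀ j ∈ R, i - j ∈ R) (hQ : ∀ i : Q, i + i + i = 0)
    {c : G → ℤ_[3]} (hc : Co χ {σ | σ ∈ U ∧ d σ = 0} c)
    (hloc : ∀ D ∈ 𝒮, Cb χ (D ∩ {σ | σ ∈ U ∧ d σ = 0}) c) :
    ∀ D ∈ 𝒮, Cb χ (D ∩ {σ | σ ∈ U ∧ d σ ∈ R}) (cor χ d T R c) := by
  have hco := cor_co hS hU hd hT hTU hR hc
  have hmul : ∀ σ ∈ {σ | σ ∈ U ∧ d σ ∈ R}, ∀ τ ∈ {σ | σ ∈ U ∧ d σ ∈ R},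
      σ * τ ∈ {σ | σ ∈ U ∧ d σ ∈ R} := by
    rintro σ ⟨h1, h2⟩ τ ⟨h3, h4⟩
    refine ⟨hU.mul _ h1 _ h3, ?_⟩
    rw [hd]
    have h5 := hR 0 h0 _ h4
    have h6 := hR _ h2 _ h5
    rwa [zero_sub, sub_neg_eq_add] at h6
  intro D hD
  choose D' hD' hconj using fun i => hS.conj D hD (T i)
  choose z hz using fun i => hloc (D' i) (hD' i)
  refine ⟨∑ i ∈ R, χ (T i) * z i, ?_⟩
  have key : ∀ σ ∈ D, σ ∈ U → d σ = 0 → cor χ d T R c σ = (χ σ - 1) * ∑ i ∈ R, χ (T i) * z i := by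
    intro σ hσ hσU h1
    rw [Finset.mul_sum]
    unfold cor xx
    simp only [h1, sub_zero]
    refine Finset.sum_congr rfl fun i _ => ?_
    have h2 := hz i ((T i)⁻¹ * σ * T i) ⟨hconj i σ hσ,
      hU.mul _ (hU.mul _ (hU.inv _ (hTU i)) _ hσU) _ (hTU i), by
        rw [hd, hd, d_inv hd, hT, h1]; abel⟩
    have h3 : χ ((T i)⁻¹ * σ * T i) = χ σ := by
      have h4 : χ (T i)⁻¹ * χ (T i) = 1 := by rw [← hS.mul, inv_mul_cancel, hS.one]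
      rw [hS.mul, hS.mul]
      linear_combination χ σ * h4
    rw [h2, h3]
    ring
  intro σ hσ
  have h1 := co_zero hS hmul (co_sub hS hco (∑ i ∈ R, χ (T i) * z i)) hσ.2 (by
    show cor χ d T R c (σ * σ * σ) - _ = 0
    rw [key _ (hS.cube D hD σ hσ.1) (hU.mul _ (hU.mul _ hσ.2.1 _ hσ.2.1) _ hσ.2.1) (by
      rw [hd, hd, hQ]), sub_self])
  exact sub_eq_zero.1 h1

include hS hU hd hlc hT hTU in
/-- **The sum over the classes.** -/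
theorem cor_cb {R : Finset Q} (h0 : (0 : Q) ∈ R) (hR : ∀ i ∈ R, ∀ j ∈ R, i - j ∈ R) (hQ : ∀ i : Q, i + i + i = 0)
    {c : G → ℤ_[3]} (hcc : Continuous c) (hc : Co χ {σ | σ ∈ U ∧ d σ = 0} c)
    (hloc : ∀ D ∈ 𝒮, Cb χ (D ∩ {σ | σ ∈ U ∧ d σ = 0}) c)
    (hZ : Zero χ 𝒮 {σ | σ ∈ U ∧ d σ ∈ R}) :
    ∃ y : ℤ_[3], ∀ σ ∈ U, d σ = 0 →
      ∑ i ∈ R, χ (T i) * c ((T i)⁻¹ * σ * T i) = (χ σ - 1) * y := by
  have hco := cor_co hS hU hd hT hTU hR hc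
  have hval : ∀ σ, d σ = 0 → cor χ d T R c σ = ∑ i ∈ R, χ (T i) * c ((T i)⁻¹ * σ * T i) := by
    intro σ h1
    unfold cor xx
    simp only [h1, sub_zero]
  have hmul : ∀ σ ∈ {σ | σ ∈ U ∧ d σ ∈ R}, ∀ τ ∈ {σ | σ ∈ U ∧ d σ ∈ R},
      σ * τ ∈ {σ | σ ∈ U ∧ d σ ∈ R} := by
    rintro σ ⟨h1, h2⟩ τ ⟨h3, h4⟩
    refine ⟨hU.mul _ h1 _ h3, ?_⟩
    rw [hd]
    have h5 := hR 0 h0 _ h4
    have h6 := hR _ h2 _ h5
    rwa [zero_sub, sub_neg_eq_add] at h6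
  obtain ⟨y, hy⟩ := hZ _ (cor_cont hlc R hcc) hco (fun D hD => by
    choose D' hD' hconj using fun i => hS.conj D hD (T i)
    choose z hz using fun i => hloc (D' i) (hD' i)
    refine ⟨∑ i ∈ R, χ (T i) * z i, ?_⟩
    have key : ∀ σ ∈ D, σ ∈ U → d σ = 0 → cor χ d T R c σ = (χ σ - 1) * ∑ i ∈ R, χ (T i) * z i := by
      intro σ hσ hσU h1
      rw [hval σ h1, Finset.mul_sum]
      refine Finset.sum_congr rfl fun i _ => ?_
      have h2 := hz i ((T i)⁻¹ * σ * T i) ⟨hconj i σ hσ,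
        hU.mul _ (hU.mul _ (hU.inv _ (hTU i)) _ hσU) _ (hTU i), by
          rw [hd, hd, d_inv hd, hT, h1]; abel⟩
      have h3 : χ ((T i)⁻¹ * σ * T i) = χ σ := by
        have h4 : χ (T i)⁻¹ * χ (T i) = 1 := by rw [← hS.mul, inv_mul_cancel, hS.one]
        rw [hS.mul, hS.mul]
        linear_combination χ σ * h4
      rw [h2, h3]
      ring
    intro σ hσ
    have h1 := co_zero hS hmul (co_sub hS hco (∑ i ∈ R, χ (T i) * z i)) hσ.2 (by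
      show cor χ d T R c (σ * σ * σ) - _ = 0
      rw [key _ (hS.cube D hD σ hσ.1) (hU.mul _ (hU.mul _ hσ.2.1 _ hσ.2.1) _ hσ.2.1) (by
        rw [hd, hd, hQ]), sub_self])
    exact sub_eq_zero.1 h1)
  refine ⟨y, fun σ hσ h1 => ?_⟩
  rw [← hval σ h1]
  exact hy σ ⟨hσ, by rw [h1]; exact h0⟩

end cor

end

end Pool.Agent.D0H69.SM
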