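import Pool.Agent.D0H69.SM.Abs

/-!
# Descent for elementary abelian three-extensions: the induction
-/

set_option autoImplicit false
set_option linter.unusedVariables false
set_option linter.unusedSectionVars false

open scoped Classical

namespace Pool.Agent.D0H69.SM

variable {G : Type} [Group G] [TopologicalSpace G] [IsTopologicalGroup G]

/-- homomorphism to `ℤ/3` -/
structure Hm (a : G → ZMod 3) : Prop where
  mul : ∀ σ τ, a (σ * τ) = a σ + a τ
  lc : IsLocallyConstant a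

lemma Hm.one {a : G → ZMod 3} (h : Hm a) : a 1 = 0 := d_one h.mul

lemma Hm.pow {a : G → ZMod 3} (h : Hm a) (σ : G) (n : ℕ) : a (σ ^ n) = n * a σ := by
  induction n with
  | zero => rw [pow_zero, h.one]; simp
  | succ n ih => rw [pow_succ, h.mul, ih]; push_cast; ring

lemma three (x : ZMod 3) : x + x + x = 0 := by
  revert x; decide

lemma Hm.cube {a : G → ZMod 3} (h : Hm a) (σ : G) : a (σ * σ * σ) = 0 := by
  rw [h.mul, h.mul, three]

lemma Hm.lin {a b : G → ZMod 3} (ha : Hm a) (hb : Hm b) (p q : ZMod 3) :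
    Hm (fun σ => p * a σ + q * b σ) where
  mul σ τ := by
    show p * a (σ * τ) + q * b (σ * τ) = _
    rw [ha.mul, hb.mul]
    ring
  lc := by
    have h1 : IsLocallyConstant (fun σ => p * a σ) := ha.lc.comp (fun x => p * x)
    have h2 : IsLocallyConstant (fun σ => q * b σ) := hb.lc.comp (fun x => q * x)
    exact h1.comp₂ h2 (fun x y => x + y)

/-- the lines -/
def ln (p : ZMod 3 × ZMod 3) : Finset (ZMod 3 × ZMod 3) :=
  Finset.univ.filter fun i => p.1 * i.1 + p.2 * i.2 = 0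

lemma mem_ln {p i : ZMod 3 × ZMod 3} : i ∈ ln p ↔ p.1 * i.1 + p.2 * i.2 = 0 := by
  unfold ln
  simp

lemma sum_ln (g : ZMod 3 × ZMod 3 → ℤ_[3]) :
    ∑ i ∈ ln (1, 0), g i + ∑ i ∈ ln (0, 1), g i + ∑ i ∈ ln (1, 1), g i + ∑ i ∈ ln (1, 2), g i =
      3 * g 0 + ∑ i, g i := by
  have h0 : 3 * g 0 = ∑ i, (if i = 0 then 3 * g i else 0) := by
    rw [Finset.sum_ite_eq' Finset.univ (0 : ZMod 3 × ZMod 3) (fun i => 3 * g i), if_pos (Finset.mem_univ _)]
  unfold ln
  rw [h0]
  simp only [Finset.sum_filter]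
  rw [← Finset.sum_add_distrib, ← Finset.sum_add_distrib, ← Finset.sum_add_distrib,
    ← Finset.sum_add_distrib]
  refine Finset.sum_congr rfl fun i _ => ?_
  have key : ∀ i : ZMod 3 × ZMod 3,
      (if 1 * i.1 + 0 * i.2 = 0 then 1 else 0) + (if 0 * i.1 + 1 * i.2 = 0 then 1 else 0) +
        (if 1 * i.1 + 1 * i.2 = 0 then 1 else 0) + (if 1 * i.1 + 2 * i.2 = 0 then 1 else 0) =
      (if i = 0 then 3 else 0) + 1 := by decide
  have k1 := congrArg (fun n : ℕ => (n : ℤ_[3]) * g i) (key i)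
  push_cast at k1
  simp only [ite_mul, one_mul, zero_mul, add_mul] at k1
  simp only [one_mul, zero_mul] at k1 ⊢
  convert k1 using 1

section
variable {χ : G → ℤ_[3]} {𝒮 : Set (Set G)} (hS : Sys χ 𝒮)

include hS in
/-- **Two homomorphisms.** -/
theorem two {U : Set G} (hU : Sg U) {a b : G → ZMod 3} (ha : Hm a) (hb : Hm b)
    {s t : G} (hs : s ∈ U) (ht : t ∈ U) (as : a s = 1) (bs : b s = 0) (at' : a t = 0)
    (bt : b t = 1) (hZ : ∀ p : ZMod 3 × ZMod 3, p ≠ 0 →
      Zero χ 𝒮 {σ | σ ∈ U ∧ p.1 * a σ + p.2 * b σ = 0}) :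
    Zero χ 𝒮 {σ | σ ∈ U ∧ a σ = 0 ∧ b σ = 0} := by
  set d : G → ZMod 3 × ZMod 3 := fun σ => (a σ, b σ) with hd
  set T : ZMod 3 × ZMod 3 → G := fun i => s ^ i.1.val * t ^ i.2.val with hT
  have hdm : ∀ σ τ, d (σ * τ) = d σ + d τ := fun σ τ => by
    rw [hd]
    exact Prod.ext (ha.mul σ τ) (hb.mul σ τ)
  have hdl : IsLocallyConstant d := ha.lc.prodMk hb.lc
  have hpow : ∀ σ ∈ U, ∀ n : ℕ, σ ^ n ∈ U := by
    intro σ hσ n
    induction n with
    | zero => rw [pow_zero]; exact hU.one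
    | succ n ih => rw [pow_succ]; exact hU.mul _ ih _ hσ
  have hTd : ∀ i, d (T i) = i := by
    intro i
    refine Prod.ext ?_ ?_
    · show a (s ^ i.1.val * t ^ i.2.val) = i.1
      rw [ha.mul, ha.pow, ha.pow, as, at', mul_one, mul_zero, add_zero, ZMod.natCast_zmod_val]
    · show b (s ^ i.1.val * t ^ i.2.val) = i.2
      rw [hb.mul, hb.pow, hb.pow, bs, bt, mul_one, mul_zero, zero_add, ZMod.natCast_zmod_val]
  have hTU : ∀ i, T i ∈ U := fun i => hU.mul _ (hpow s hs _) _ (hpow t ht _)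
  have hd0 : ∀ σ, d σ = 0 ↔ a σ = 0 ∧ b σ = 0 := fun σ => Prod.ext_iff
  have hset : {σ | σ ∈ U ∧ a σ = 0 ∧ b σ = 0} = {σ | σ ∈ U ∧ d σ = 0} := by
    ext σ
    exact and_congr_right fun _ => (hd0 σ).symm
  rw [hset]
  intro c hcc hc hloc
  have hQ : ∀ i : ZMod 3 × ZMod 3, i + i + i = 0 := by decide
  have hln : ∀ p : ZMod 3 × ZMod 3, p ≠ 0 → ∃ y : ℤ_[3], ∀ σ ∈ U, d σ = 0 →
      ∑ i ∈ ln p, χ (T i) * c ((T i)⁻¹ * σ * T i) = (χ σ - 1) * y := by
    intro p hp
    refine cor_cb hS hU hdm hdl hTd hTU (mem_ln.2 (by simp)) (fun i hi j hj => ?_) hQ hcc hc hloc ?_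
    · rw [mem_ln] at hi hj ⊢
      have e1 : (i - j).1 = i.1 - j.1 := rfl
      have e2 : (i - j).2 = i.2 - j.2 := rfl
      rw [e1, e2]
      linear_combination hi - hj
    · have h1 := hZ p hp
      have e : {σ | σ ∈ U ∧ d σ ∈ ln p} = {σ | σ ∈ U ∧ p.1 * a σ + p.2 * b σ = 0} := by
        ext σ
        exact and_congr_right fun _ => mem_ln
      rw [e]
      exact h1
  have hun : ∃ y : ℤ_[3], ∀ σ ∈ U, d σ = 0 →
      ∑ i, χ (T i) * c ((T i)⁻¹ * σ * T i) = (χ σ - 1) * y := by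
    refine cor_cb hS hU hdm hdl hTd hTU (Finset.mem_univ _) (fun i hi j hj => Finset.mem_univ _) hQ hcc
      hc hloc ?_
    refine desc hS (A := {σ | σ ∈ U ∧ (1 : ZMod 3) * a σ + 0 * b σ = 0}) (fun σ hσ => ⟨hσ.1, Finset.mem_univ _⟩)
      (fun σ hσ τ hτ => ⟨hU.mul _ hσ.1 _ hτ.1, Finset.mem_univ _⟩) (fun σ hσ => ⟨?_, ?_⟩)
      (hZ (1, 0) (by decide))
    · exact hU.mul _ (hU.mul _ hσ.1 _ hσ.1) _ hσ.1
    · show (1 : ZMod 3) * a (σ * σ * σ) + 0 * b (σ * σ * σ) = 0
      rw [ha.cube, zero_mul, mul_zero, add_zero]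
  obtain ⟨y1, h1⟩ := hln (1, 0) (by decide)
  obtain ⟨y2, h2⟩ := hln (0, 1) (by decide)
  obtain ⟨y3, h3⟩ := hln (1, 1) (by decide)
  obtain ⟨y4, h4⟩ := hln (1, 2) (by decide)
  obtain ⟨y5, h5⟩ := hun
  have hT0 : T 0 = 1 := by
    show s ^ ((0 : ZMod 3)).val * t ^ ((0 : ZMod 3)).val = 1
    rw [ZMod.val_zero, pow_zero, pow_zero, mul_one]
  have key : ∀ σ ∈ U, d σ = 0 → 3 * c σ = (χ σ - 1) * (y1 + y2 + y3 + y4 - y5) := by
    intro σ hσ h0
    have h6 := sum_ln (fun i => χ (T i) * c ((T i)⁻¹ * σ * T i))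
    rw [h1 σ hσ h0, h2 σ hσ h0, h3 σ hσ h0, h4 σ hσ h0, h5 σ hσ h0] at h6
    simp only [hT0, hS.one, one_mul, inv_one, mul_one] at h6
    linear_combination -h6
  obtain ⟨D, hD, σ₀, hσ₀, hne⟩ := hS.ex
  obtain ⟨z, hz⟩ := hloc D hD
  have hm : σ₀ * σ₀ * σ₀ ∈ U := hU.cube σ₀
  have hm0 : d (σ₀ * σ₀ * σ₀) = 0 := by rw [hdm, hdm, hQ]
  have h7 := key _ hm hm0
  rw [hz _ ⟨hS.cube D hD σ₀ hσ₀, hm, hm0⟩] at h7
  have h8 : y1 + y2 + y3 + y4 - y5 = 3 * z := by
    apply mul_left_cancel₀ (sub_ne_zero.2 hne)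
    linear_combination -h7
  refine ⟨z, fun σ hσ => ?_⟩
  have h9 := key σ hσ.1 hσ.2
  rw [h8] at h9
  have h10 : (3 : ℤ_[3]) ≠ 0 := by
    have : ((3 : ℕ) : ℤ_[3]) ≠ 0 := by exact_mod_cast (by norm_num : (3 : ℕ) ≠ 0)
    exact_mod_cast this
  apply mul_left_cancel₀ h10
  linear_combination h9

lemma sg_ker {ι : Type} {a : ι → G → ZMod 3} (ha : ∀ i, Hm (a i)) : Sg {σ : G | ∀ i, a i σ = 0} where
  mul σ hσ τ hτ := fun i => by rw [(ha i).mul, hσ i, hτ i, add_zero]
  inv σ hσ := fun i => by rw [d_inv (ha i).mul, hσ i, neg_zero]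
  one := fun i => (ha i).one
  cube σ := fun i => (ha i).cube σ

include hS in
/-- **A family of homomorphisms.** -/
theorem fam (m : ℕ) : ∀ a : Fin (m + 1) → G → ZMod 3, (∀ i, Hm (a i)) →
    (∀ x : Fin (m + 1) → ZMod 3, x ≠ 0 → Zero χ 𝒮 {σ | ∑ i, x i * a i σ = 0}) →
    Zero χ 𝒮 {σ | ∀ i, a i σ = 0} := by
  induction m with
  | zero =>
    intro a ha hZ
    have h1 := hZ (fun _ => 1) (fun h => absurd (congrFun h 0) (by decide))
    have e : {σ : G | ∑ i : Fin 1, (1 : ZMod 3) * a i σ = 0} = {σ | ∀ i, a i σ = 0} := by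
      ext σ
      simp only [Set.mem_ofPred_eq, Fin.sum_univ_one, one_mul]
      exact ⟨fun h i => by
        have h0 : i = 0 := Subsingleton.elim (α := Fin 1) _ _
        rw [h0]
        exact h, fun h => h 0⟩
    have h2 : Zero χ 𝒮 {σ : G | ∑ i : Fin 1, (1 : ZMod 3) * a i σ = 0} := h1
    rw [e] at h2
    exact h2
  | succ m ih =>
    intro a ha hZ
    set U : Set G := {σ | ∀ i : Fin m, a i.succ.succ σ = 0} with hU
    have hUs : Sg U := sg_ker fun i => ha _
    have hp : ∀ p : ZMod 3 × ZMod 3, p ≠ 0 →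
        Zero χ 𝒮 {σ | σ ∈ U ∧ p.1 * a 0 σ + p.2 * a 1 σ = 0} := by
      intro p hp
      have h1 := ih (Fin.cons (fun σ => p.1 * a 0 σ + p.2 * a 1 σ) fun i => a i.succ.succ)
        (fun i => by
          refine Fin.cases ?_ (fun i => ?_) i
          · rw [Fin.cons_zero]
            exact (ha 0).lin (ha 1) _ _
          · rw [Fin.cons_succ]
            exact ha _) (fun x hx => by
          have h2 := hZ (Fin.cons (x 0 * p.1) (Fin.cons (x 0 * p.2) fun i => x i.succ)) (by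
            intro h0
            apply hx
            have e0 := congrFun h0 0
            have e1 := congrFun h0 (Fin.succ 0)
            rw [Fin.cons_zero] at e0
            rw [Fin.cons_succ, Fin.cons_zero] at e1
            have hx0 : x 0 = 0 := by
              by_contra hne
              apply hp
              refine Prod.ext ?_ ?_
              · exact (mul_eq_zero.1 e0).resolve_left hne
              · exact (mul_eq_zero.1 e1).resolve_left hne
            funext i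
            refine Fin.cases hx0 (fun i => ?_) i
            have e2 := congrFun h0 i.succ.succ
            rw [Fin.cons_succ, Fin.cons_succ] at e2
            exact e2)
          have e : {σ : G | ∑ i, (Fin.cons (x 0 * p.1) (Fin.cons (x 0 * p.2) fun i => x i.succ) :
                Fin (m + 1 + 1) → ZMod 3) i * a i σ = 0} =
              {σ | ∑ i, x i * (Fin.cons (fun σ => p.1 * a 0 σ + p.2 * a 1 σ)
                (fun i => a i.succ.succ) : Fin (m + 1) → G → ZMod 3) i σ = 0} := by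
            ext σ
            simp only [Set.mem_ofPred_eq]
            rw [Fin.sum_univ_succ, Fin.sum_univ_succ, Fin.sum_univ_succ (n := m)]
            simp only [Fin.cons_zero, Fin.cons_succ]
            have : (x 0 * p.1 * a 0 σ + (x 0 * p.2 * a (Fin.succ 0) σ +
                ∑ i : Fin m, x i.succ * a i.succ.succ σ)) =
              (x 0 * (p.1 * a 0 σ + p.2 * a 1 σ) + ∑ i : Fin m, x i.succ * a i.succ.succ σ) := by
              have e1 : (Fin.succ 0 : Fin (m + 1 + 1)) = 1 := rfl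
              rw [e1]
              ring
            rw [this]
          rw [e] at h2
          exact h2)
      have e : {σ : G | ∀ i, (Fin.cons (fun σ => p.1 * a 0 σ + p.2 * a 1 σ)
          (fun i => a i.succ.succ) : Fin (m + 1) → G → ZMod 3) i σ = 0} =
          {σ | σ ∈ U ∧ p.1 * a 0 σ + p.2 * a 1 σ = 0} := by
        ext σ
        simp only [Set.mem_ofPred_eq]
        constructor
        · intro h
          exact ⟨fun i => h i.succ, h 0⟩
        · rintro ⟨h1, h2⟩ i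
          exact Fin.cases h2 (fun i => h1 i) i
      rw [e] at h1
      exact h1
    have hfin : {σ : G | ∀ i, a i σ = 0} = {σ | σ ∈ U ∧ a 0 σ = 0 ∧ a 1 σ = 0} := by
      ext σ
      constructor
      · intro h
        exact ⟨fun i => h _, h 0, h 1⟩
      · rintro ⟨h1, h2, h3⟩ i
        exact Fin.cases h2 (fun i => Fin.cases h3 (fun i => h1 i) i) i
    rw [hfin]
    have hsq : ∀ x : ZMod 3, x ≠ 0 → x * x = 1 := by decide
    by_cases ht : ∃ t ∈ U, a 0 t = 0 ∧ a 1 t ≠ 0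
    · by_cases hs : ∃ s ∈ U, a 1 s = 0 ∧ a 0 s ≠ 0
      · obtain ⟨t, ht, ht0, ht1⟩ := ht
        obtain ⟨s, hs, hs1, hs0⟩ := hs
        have hpow : ∀ σ ∈ U, ∀ n : ℕ, σ ^ n ∈ U := by
          intro σ hσ n
          induction n with
          | zero => rw [pow_zero]; exact hUs.one
          | succ n ih => rw [pow_succ]; exact hUs.mul _ ih _ hσ
        refine two hS hUs (ha 0) (ha 1) (s := s ^ (a 0 s).val) (t := t ^ (a 1 t).val)
          (hpow s hs _) (hpow t ht _) ?_ ?_ ?_ ?_ hp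
        · rw [(ha 0).pow, ZMod.natCast_zmod_val, hsq _ hs0]
        · rw [(ha 1).pow, hs1, mul_zero]
        · rw [(ha 0).pow, ht0, mul_zero]
        · rw [(ha 1).pow, ZMod.natCast_zmod_val, hsq _ ht1]
      · push Not at hs
        have e : {σ : G | σ ∈ U ∧ a 0 σ = 0 ∧ a 1 σ = 0} =
            {σ | σ ∈ U ∧ (0 : ZMod 3) * a 0 σ + 1 * a 1 σ = 0} := by
          ext σ
          simp only [Set.mem_ofPred_eq, zero_mul, one_mul, zero_add]
          exact and_congr_right fun h => ⟨fun h => h.2, fun h1 => ⟨hs σ h h1, h1⟩⟩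
        rw [e]
        exact hp (0, 1) (by decide)
    · push Not at ht
      have e : {σ : G | σ ∈ U ∧ a 0 σ = 0 ∧ a 1 σ = 0} =
          {σ | σ ∈ U ∧ (1 : ZMod 3) * a 0 σ + 0 * a 1 σ = 0} := by
        ext σ
        simp only [Set.mem_ofPred_eq, zero_mul, one_mul, add_zero]
        exact and_congr_right fun h => ⟨fun h => h.1, fun h1 => ⟨h1, ht σ h h1⟩⟩
      rw [e]
      exact hp (1, 0) (by decide)

end

end Pool.Agent.D0H69.SM
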