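import Pool.Agent.D0H69.SM.Tri

/-!
# A basis of an extension generated by cube roots inside a field
-/

set_option autoImplicit false
set_option linter.unusedVariables false
set_option linter.unusedSectionVars false

open scoped Classical

namespace Pool.Agent.D0H69.SM

open Pool.Agent.D0H69.JTB (Ind3 deg3 step)

section
variable {K L : Type} [Field K] [CharZero K] [Field L] [Algebra K L]

/-- the degree -/
theorem deg_adj {ω : K} (hω : ω ^ 2 + ω + 1 = 0) {n : ℕ} {d : Fin n → K}
    {x : Fin n → L} (hd : ∀ i, d i ≠ 0) (hx : ∀ i, x i ^ 3 = algebraMap K L (d i))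
    (hI : Ind3 d) : Module.finrank K (IntermediateField.adjoin K (Set.range x)) = 3 ^ n := by
  set E := IntermediateField.adjoin K (Set.range x) with hE
  have hmem : ∀ i, x i ∈ E := fun i => IntermediateField.subset_adjoin K _ ⟨i, rfl⟩
  exact deg3 (F := E) hω (x := fun i => ⟨x i, hmem i⟩) hd (fun i => by
    apply Subtype.ext
    exact hx i) (fun S hS hxS => by
    rw [eq_top_iff]
    rintro y -
    let T : IntermediateField K L :=
      { (S.map E.val.toRingHom) with
        algebraMap_mem' := fun k => ⟨algebraMap K E k, hS k, rfl⟩ }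
    have h2 : E ≤ T := by
      rw [hE, IntermediateField.adjoin_le_iff]
      rintro _ ⟨i, rfl⟩
      exact ⟨⟨x i, hmem i⟩, hxS i, rfl⟩
    obtain ⟨z, hz, hzy⟩ := h2 y.2
    have h3 : z = y := Subtype.ext hzy
    rwa [← h3]) hI

/-- **An independent family of generators.** -/
theorem basis_in {ω : K} (hω : ω ^ 2 + ω + 1 = 0) {S : Set L}
    [FiniteDimensional K (IntermediateField.adjoin K S)]
    (hS : ∀ x ∈ S, ∃ u : K, x ^ 3 = algebraMap K L u) :
    ∃ (r : ℕ) (d : Fin r → K) (x : Fin r → L), (∀ i, d i ≠ 0) ∧ (∀ i, x i ∈ S) ∧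
      (∀ i, x i ^ 3 = algebraMap K L (d i)) ∧
      IntermediateField.adjoin K (Set.range x) = IntermediateField.adjoin K S ∧ Ind3 d := by
  by_contra hcon
  have key : ∀ n : ℕ, ∃ (d : Fin n → K) (x : Fin n → L), (∀ i, d i ≠ 0) ∧ (∀ i, x i ∈ S) ∧
      (∀ i, x i ^ 3 = algebraMap K L (d i)) ∧ Ind3 d := by
    intro n
    induction n with
    | zero => exact ⟨Fin.elim0, Fin.elim0, fun i => i.elim0, fun i => i.elim0, fun i => i.elim0,
        fun a ⟨i, _⟩ => i.elim0⟩
    | succ n ih =>
      obtain ⟨d, x, hd, hxS, hx, hI⟩ := ih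
      have hle : IntermediateField.adjoin K (Set.range x) ≤ IntermediateField.adjoin K S := by
        rw [IntermediateField.adjoin_le_iff]
        rintro _ ⟨i, rfl⟩
        exact IntermediateField.subset_adjoin K S (hxS i)
      have h2 : ¬ S ⊆ (IntermediateField.adjoin K (Set.range x) : Set L) := by
        intro h2
        exact hcon ⟨n, d, x, hd, hxS, hx, le_antisymm hle
          ((IntermediateField.adjoin_le_iff).2 h2), hI⟩
      obtain ⟨y, hyS, hyE⟩ := Set.not_subset.1 h2
      obtain ⟨u, hu⟩ := hS y hyS
      have hyE' : y ∉ IntermediateField.adjoin K (Set.range x) := hyE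
      have hu0 : u ≠ 0 := by
        rintro rfl
        rw [map_zero] at hu
        have h3 : y = 0 := by simpa using hu
        rw [h3] at hyE'
        exact hyE' (zero_mem _)
      refine ⟨Fin.snoc d u, Fin.snoc x y, fun i => ?_, fun i => ?_, fun i => ?_,
        step hω hd hx hI hu0 hu hyE'⟩
      · refine Fin.lastCases ?_ (fun i => ?_) i
        · rw [Fin.snoc_last]; exact hu0
        · rw [Fin.snoc_castSucc]; exact hd i
      · refine Fin.lastCases ?_ (fun i => ?_) i
        · rw [Fin.snoc_last]; exact hyS
        · rw [Fin.snoc_castSucc]; exact hxS i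
      · refine Fin.lastCases ?_ (fun i => ?_) i
        · rw [Fin.snoc_last, Fin.snoc_last]; exact hu
        · rw [Fin.snoc_castSucc, Fin.snoc_castSucc]; exact hx i
  obtain ⟨d, x, hd, hxS, hx, hI⟩ := key (Module.finrank K (IntermediateField.adjoin K S))
  have hle : IntermediateField.adjoin K (Set.range x) ≤ IntermediateField.adjoin K S := by
    rw [IntermediateField.adjoin_le_iff]
    rintro _ ⟨i, rfl⟩
    exact IntermediateField.subset_adjoin K S (hxS i)
  have h1 := deg_adj hω hd hx hI
  have h2 : Module.finrank K (IntermediateField.adjoin K (Set.range x)) ≤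
      Module.finrank K (IntermediateField.adjoin K S) :=
    LinearMap.finrank_le_finrank_of_injective (f := (IntermediateField.inclusion hle).toLinearMap)
      (IntermediateField.inclusion_injective hle)
  rw [h1] at h2
  exact absurd h2 (not_le.2 (Nat.lt_pow_self (by norm_num)))

end

end Pool.Agent.D0H69.SM
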