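import Pool.Agent.D0H69.SM.Gal
import Pool.Agent.D0H50.SC.Fin

/-!
# The cubic extensions with the criterion
-/

set_option autoImplicit false
set_option linter.unusedVariables false
set_option linter.unusedSectionVars false

open scoped Classical

namespace Pool.Agent.D0H69.SM

open Pool.Agent.Y692.QS
open Pool.Agent.Y715.T.Gi Pool.Agent.Y715.T.Nr Pool.Agent.Y715.T.Red Pool.Agent.Y715.T.Df
open Pool.Agent.Y715.T.Sel
open Pool.Agent.Y715.T.RecG (Pq)
open Pool.Agent.N848.Sch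
open Pool.Agent.D0H50.SC

variable {i₀ : QB} {hi : i₀ ^ 2 + i₀ + 1 = 0}

/-- the data of the criterion -/
structure Fc {n : ℕ} (u : Ei) (π : Fin n → Ei) (e : Fin n → ZMod 3) (D : Ei) : Prop where
  dvd : u ∣ 3
  pq : ∀ i, Pq (π i)
  inj : Function.Injective π
  exp : ∀ i, e i ≠ 0
  prod : D = u * ∏ i, π i ^ (e i).val

lemma Fc.ne {n : ℕ} {u : Ei} {π : Fin n → Ei} {e : Fin n → ZMod 3} {D : Ei} (h : Fc u π e D) :
    D ≠ 0 := by
  rw [h.prod]
  exact mul_ne_zero (ne_u h.dvd)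
    (Finset.prod_ne_zero_iff.2 fun i _ => pow_ne_zero _ (h.pq i).prime.ne_zero)

lemma exists_move {s : QB} (hs : s ∉ KK i₀) : ∃ σ : GK i₀, σ s ≠ s := by
  by_contra hcon
  push Not at hcon
  apply hs
  have h1 : s ∈ (⊥ : IntermediateField (KK i₀) QB) := by
    rw [← InfiniteGalois.fixedField_fixingSubgroup (⊥ : IntermediateField (KK i₀) QB),
      IntermediateField.mem_fixedField_iff]
    exact fun σ _ => hcon σ
  obtain ⟨y, hy⟩ := IntermediateField.mem_bot.1 h1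
  rw [← hy]
  exact y.2

/-- **The cubic extensions.** -/
theorem sz_cub {n : ℕ} {u : Ei} {π : Fin n → Ei} {e : Fin n → ZMod 3} {D : Ei}
    (h : Fc u π e D) (hk : CrC u π e) {s : QB} (hs : s ^ 3 = ev i₀ hi D) (hsK : s ∉ KK i₀)
    {r : ℤ} (hr : r ≠ 0) : SZ (IntermediateField.adjoin (KK i₀) {s}).fixingSubgroup r := by
  have hPP := pp_of h.pq h.inj
  obtain ⟨a, hdat⟩ := dat_cubic hi h.ne hs (fun χ hχ => by
    obtain ⟨σ, hσ⟩ := exists_move hsK
    exact ⟨σ, fun h0 => hσ ((kc_fix h.ne hχ hs σ).1 h0)⟩)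
  have hU : ∀ (p : ℕ) [Fact p.Prime] (ι : QB →ₐ[ℚ] PadicAlgCl p), p ≠ 3 →
      ¬ ‖ι (ev i₀ hi D)‖ < 1 → ∀ (τ : Au p) (σ : GK i₀), Cmp ι τ σ → Inert τ →
        σ ∈ (IntermediateField.adjoin (KK i₀) {s}).fixingSubgroup := by
    rintro p _ ι hp hlt τ σ hc hin
    rw [iota_ev] at hlt
    have h1 : τ (ι s) = ι s := by
      refine fix_of_unit (iota_sq hi ι) hp (z := D)
        (by rw [← map_pow, hs, iota_ev]) hlt hin hc.fix
    rw [hc] at h1
    exact mem_fix.2 (ι.injective h1)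
  intro c hcc hc h1 h3
  exact van_field (c := c) hdat hPP h.exp h.prod (ne_u h.dvd)
    (fun j => not_dvd_u (h.pq j) h.dvd) (un3 hi h.dvd) ((crC_iff hPP e h.dvd).1 hk) hU hr
    hcc hc h1 h3

lemma w_dvd : (w : Ei) ∣ 3 := (Pool.Agent.N883.FF.isUnit_w).dvd

lemma no_root (t : ℚ) (h : t ^ 3 - 3 * t + 1 = 0) : False := by
  have h1 : IsIntegral ℤ t := by
    refine ⟨Polynomial.X ^ 3 - 3 * Polynomial.X + 1, by monicity!, ?_⟩
    simp only [Polynomial.eval₂_add, Polynomial.eval₂_sub, Polynomial.eval₂_mul,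
      Polynomial.eval₂_pow, Polynomial.eval₂_X, Polynomial.eval₂_one, Polynomial.eval₂_ofNat]
    exact h
  obtain ⟨y, hy⟩ := IsIntegrallyClosed.isIntegral_iff.1 h1
  have h2 : y ^ 3 - 3 * y + 1 = 0 := by
    rw [← hy] at h
    simp only [eq_intCast] at h
    exact_mod_cast h
  rcases Int.even_or_odd' y with ⟨k, rfl | rfl⟩
  · have h3 : 2 * (4 * k ^ 3 - 3 * k) + 1 = 0 := by linear_combination h2
    generalize 4 * k ^ 3 - 3 * k = m at h3
    omega
  · have h3 : 2 * (4 * k ^ 3 + 6 * k ^ 2 - 1) + 1 = 0 := by linear_combination h2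
    generalize 4 * k ^ 3 + 6 * k ^ 2 - 1 = m at h3
    omega

lemma i₀_irr (hi : i₀ ^ 2 + i₀ + 1 = 0) {a b : ℚ} (h : (a : QB) + b * i₀ = 0) : a = 0 ∧ b = 0 := by
  have key : a ^ 2 - a * b + b ^ 2 = 0 := by
    have h1 : ((a ^ 2 - a * b + b ^ 2 : ℚ) : QB) = 0 := by
      push_cast
      linear_combination ((a : QB) - b - b * i₀) * h + (b : QB) ^ 2 * hi
    exact_mod_cast h1
  have h2 : (2 * a - b) ^ 2 + 3 * b ^ 2 = 0 := by linear_combination 4 * key
  have h3 : b = 0 := by nlinarith [sq_nonneg (2 * a - b), sq_nonneg b]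
  refine ⟨?_, h3⟩
  rw [h3] at h2
  nlinarith [sq_nonneg a]

/-- a ninth root of unity is not in `K` -/
lemma root_w {s : QB} (hs : s ^ 3 = ev i₀ hi w) : s ∉ KK i₀ := by
  intro hmem
  obtain ⟨a, b, e⟩ := KK_ex hi hmem
  have hw : ev i₀ hi w = i₀ := by
    rw [ev_apply]
    unfold w
    push_cast
    ring
  rw [hw, e] at hs
  have h1 : ((a ^ 3 + b ^ 3 - 3 * a * b ^ 2 : ℚ) : QB) +
      ((3 * a ^ 2 * b - 3 * a * b ^ 2 - 1 : ℚ) : QB) * i₀ = 0 := by
    push_cast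
    linear_combination hs + (-(3 * (a : QB) * b ^ 2) - (b : QB) ^ 3 * (i₀ - 1)) * hi
  obtain ⟨h2, h3⟩ := i₀_irr hi h1
  have hb : b ≠ 0 := by
    rintro rfl
    norm_num at h3
  apply no_root (a / b)
  field_simp
  linear_combination h2

include hi in
/-- **The base field.** -/
theorem sz_top {r : ℤ} (hr : r ≠ 0) : SZ (⊤ : Subgroup (GK i₀)) r := by
  obtain ⟨s, hs⟩ := ex_root (ev i₀ hi w)
  have h1 := sz_cub (n := 0) (u := w) (π := Fin.elim0) (e := Fin.elim0) (D := w) (hi := hi)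
    ⟨w_dvd, fun i => i.elim0, fun i => i.elim0, fun i => i.elim0, by simp⟩
    (fun v _ _ j => j.elim0) hs (root_w hs) hr
  have hK : Kf hi (fun _ : Fin 1 => s) (fun _ => w) :=
    ⟨fun _ => (Pool.Agent.N883.FF.isUnit_w).ne_zero, fun _ => hs⟩
  refine down hr hK ?_ le_top
  have e : Set.range (fun _ : Fin 1 => s) = {s} := Set.range_const
  rw [e]
  exact h1

/-- **The extensions by one root.** -/
theorem sz_crit {n : ℕ} {u : Ei} {π : Fin n → Ei} {e : Fin n → ZMod 3} {D : Ei}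
    (h : Fc u π e D) (hk : CrC u π e) {s : QB} (hs : s ^ 3 = ev i₀ hi D)
    {r : ℤ} (hr : r ≠ 0) : SZ (IntermediateField.adjoin (KK i₀) {s}).fixingSubgroup r := by
  by_cases hsK : s ∈ KK i₀
  · have e : (IntermediateField.adjoin (KK i₀) {s}).fixingSubgroup = ⊤ := by
      rw [eq_top_iff]
      intro σ _
      rw [mem_fix]
      exact σ.commutes ⟨s, hsK⟩
    rw [e]
    exact sz_top (hi := hi) hr
  · exact sz_cub h hk hs hsK hr

/-- the elements with the criterion, up to cubes -/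
def CrU (D : Ei) : Prop := ∃ (D' c d : Ei) (n : ℕ) (u : Ei) (π : Fin n → Ei) (e : Fin n → ZMod 3),
  c ≠ 0 ∧ d ≠ 0 ∧ D * c ^ 3 = D' * d ^ 3 ∧ Fc u π e D' ∧ CrC u π e

lemma ev_ne' {z : Ei} (hz : z ≠ 0) : ev i₀ hi z ≠ 0 := ev_ne hi hz

lemma fix_eq {s t : QB} {c d : Ei} (hc : c ≠ 0) (hd : d ≠ 0)
    (h : s * ev i₀ hi c = t * ev i₀ hi d) :
    (IntermediateField.adjoin (KK i₀) {s}).fixingSubgroup =
      (IntermediateField.adjoin (KK i₀) {t}).fixingSubgroup := by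
  ext σ
  rw [mem_fix, mem_fix]
  have h1 := congrArg σ h
  rw [map_mul, map_mul, gk_ev, gk_ev] at h1
  constructor
  · intro h2
    rw [h2, h] at h1
    exact (mul_right_cancel₀ (ev_ne hi hd) h1).symm
  · intro h2
    rw [h2, ← h] at h1
    exact mul_right_cancel₀ (ev_ne hi hc) h1

theorem sz_cru {D : Ei} (h : CrU D) {s : QB} (hs : s ^ 3 = ev i₀ hi D)
    {r : ℤ} (hr : r ≠ 0) : SZ (IntermediateField.adjoin (KK i₀) {s}).fixingSubgroup r := by
  obtain ⟨D', c, d, n, u, π, e, hc, hd, heq, hF, hk⟩ := h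
  have h1 := ev_ne hi hc
  have h2 := ev_ne hi hd
  have h3 : (s * ev i₀ hi c / ev i₀ hi d) ^ 3 = ev i₀ hi D' := by
    rw [div_pow, mul_pow, hs, ← map_pow, ← map_mul, heq, map_mul, map_pow]
    field_simp
  rw [fix_eq (s := s) (t := s * ev i₀ hi c / ev i₀ hi d) hc hd (by field_simp)]
  exact sz_crit hF hk h3 hr

end Pool.Agent.D0H69.SM
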