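import Pool.Agent.D0H69.SM.Abt
import Pool.Agent.N848.Sch.M

/-!
# Descent for elementary abelian three-extensions of `ℚ(ω)`: Galois groups
-/

set_option autoImplicit false
set_option linter.unusedVariables false
set_option linter.unusedSectionVars false

open scoped Classical

namespace Pool.Agent.D0H69.SM

open Pool.Agent.Y692.QS
open Pool.Agent.Y715.T.Gi Pool.Agent.Y715.T.Nr Pool.Agent.Y715.T.Red Pool.Agent.Y715.T.Df
open Pool.Agent.Y715.T.Sel
open Pool.Agent.N848.Sch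

variable {i₀ : QB}

/-- the power of the cyclotomic character -/
noncomputable def ch (i₀ : QB) (r : ℤ) (σ : GK i₀) : ℤ_[3] := (((cyc i₀ σ) ^ r : ℤ_[3]ˣ) : ℤ_[3])

/-- the inertia groups prime to three and the decomposition groups above three -/
def SS (i₀ : QB) : Set (Set (GK i₀)) :=
  {D | (∃ (p : ℕ) (_ : Fact p.Prime) (ι : QB →ₐ[ℚ] PadicAlgCl p), p ≠ 3 ∧
      D = {σ | ∃ τ : Au p, Cmp ι τ σ ∧ Inert τ}) ∨
    ∃ ι : QB →ₐ[ℚ] PadicAlgCl 3, D = {σ | ∃ τ : Au 3, Cmp ι τ σ}}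

/-- the group vanishes over the field with the group `H` -/
def SZ (H : Subgroup (GK i₀)) (r : ℤ) : Prop :=
  ∀ c : H → ℤ_[3], Continuous c →
    (∀ σ τ : H, c (σ * τ) = c σ + (((cyc i₀ (σ : GK i₀)) ^ r : ℤ_[3]ˣ) : ℤ_[3]) * c τ) →
    (∀ (p : ℕ) [Fact p.Prime] (ι : QB →ₐ[ℚ] PadicAlgCl p), p ≠ 3 →
      ∀ (τ : Au p) (σ : H), Cmp ι τ (σ : GK i₀) → Inert τ → c σ = 0) →
    (∀ (ι : QB →ₐ[ℚ] PadicAlgCl 3), ∃ y : ℤ_[3], ∀ (τ : Au 3) (σ : H),
      Cmp ι τ (σ : GK i₀) → c σ = ((((cyc i₀ (σ : GK i₀)) ^ r : ℤ_[3]ˣ) : ℤ_[3]) - 1) * y) →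
    ∃ y : ℤ_[3], ∀ σ : H,
      c σ = ((((cyc i₀ (σ : GK i₀)) ^ r : ℤ_[3]ˣ) : ℤ_[3]) - 1) * y

lemma ch_inert {r : ℤ} {p : ℕ} [Fact p.Prime] (hp : p ≠ 3) {ι : QB →ₐ[ℚ] PadicAlgCl p} {σ : GK i₀}
    {τ : Au p} (hτ : Cmp ι τ σ) (hin : Inert τ) : ch i₀ r σ = 1 := by
  unfold ch
  rw [cyc_inert hp hτ hin, one_zpow, Units.val_one]

theorem sys (hi : i₀ ^ 2 + i₀ + 1 = 0) {r : ℤ} (hr : r ≠ 0) : Sys (ch i₀ r) (SS i₀) where
  cont := Units.continuous_val.comp ((cyc_cont i₀).zpow r)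
  one := by
    unfold ch
    rw [map_one, one_zpow, Units.val_one]
  mul σ τ := by
    unfold ch
    rw [map_mul, mul_zpow, Units.val_mul]
  conj := by
    rintro D (⟨p, hp, ι, h3, rfl⟩ | ⟨ι, rfl⟩) g
    · refine ⟨{σ | ∃ τ : Au p, Cmp (ι.comp (gh g)) τ σ ∧ Inert τ}, Or.inl ⟨p, hp, _, h3, rfl⟩, ?_⟩
      rintro σ ⟨τ, h1, h2⟩
      exact ⟨τ, cmp_conj h1 g, h2⟩
    · refine ⟨{σ | ∃ τ : Au 3, Cmp (ι.comp (gh g)) τ σ}, Or.inr ⟨_, rfl⟩, ?_⟩
      rintro σ ⟨τ, h1⟩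
      exact ⟨τ, cmp_conj h1 g⟩
  cube := by
    rintro D (⟨p, hp, ι, h3, rfl⟩ | ⟨ι, rfl⟩) σ hσ
    · obtain ⟨τ, h1, h2⟩ := hσ
      exact ⟨τ * τ * τ, (h1.mul h1).mul h1, inert_mul (inert_mul h2 h2) h2⟩
    · obtain ⟨τ, h1⟩ := hσ
      exact ⟨τ * τ * τ, (h1.mul h1).mul h1⟩
  ex := by
    obtain ⟨ι⟩ := exists_emb3
    obtain ⟨τ, σ, hc, hne⟩ := exists_E_ne hi ι hr (n := 3) (by norm_num)
    refine ⟨_, Or.inr ⟨ι, rfl⟩, σ, ⟨τ, hc⟩, fun h => hne ?_⟩
    unfold E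
    have e : σ ^ 3 = σ * σ * σ := by rw [pow_succ, pow_two]
    rw [e]
    have h1 : (((cyc i₀ (σ * σ * σ)) ^ r : ℤ_[3]ˣ) : ℤ_[3]) = 1 := h
    rw [h1, om_one]

/-- **From the subgroup to the set.** -/
theorem zero_of_sz {H : Subgroup (GK i₀)} {r : ℤ} (h : SZ H r) : Zero (ch i₀ r) (SS i₀) (H : Set (GK i₀)) := by
  intro c hcc hc hloc
  obtain ⟨y, hy⟩ := h (fun σ => c σ) (hcc.comp continuous_subtype_val)
    (fun σ τ => hc σ σ.2 τ τ.2)
    (fun p _ ι hp τ σ hcmp hin => by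
      obtain ⟨z, hz⟩ := hloc _ (Or.inl ⟨p, inferInstance, ι, hp, rfl⟩)
      show c σ = 0
      rw [hz σ ⟨⟨τ, hcmp, hin⟩, σ.2⟩, ch_inert hp hcmp hin, sub_self, zero_mul])
    (fun ι => by
      obtain ⟨z, hz⟩ := hloc _ (Or.inr ⟨ι, rfl⟩)
      exact ⟨z, fun τ σ hcmp => hz σ ⟨⟨τ, hcmp⟩, σ.2⟩⟩)
  exact ⟨y, fun σ hσ => hy ⟨σ, hσ⟩⟩

/-- **From the set to the subgroup.** -/
theorem sz_of_zero {H : Subgroup (GK i₀)} (hop : IsOpen (H : Set (GK i₀))) {r : ℤ}
    (h : Zero (ch i₀ r) (SS i₀) (H : Set (GK i₀))) : SZ H r := by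
  intro c hcc hc h1 h3
  set c' : GK i₀ → ℤ_[3] := fun σ => if h : σ ∈ H then c ⟨σ, h⟩ else 0 with hc'
  have hval' : ∀ (σ : GK i₀) (h : σ ∈ H), c' σ = c ⟨σ, h⟩ := by
    intro σ h
    rw [hc']
    exact dif_pos h
  have hclop : IsClopen (H : Set (GK i₀)) := ⟨Subgroup.isClosed_of_isOpen H hop, hop⟩
  have hcont : Continuous c' := by
    rw [← continuousOn_univ, ← Set.union_compl_self (H : Set (GK i₀))]
    refine ContinuousOn.union_of_isOpen ?_ ?_ hclop.isOpen hclop.compl.isOpen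
    · rw [continuousOn_iff_continuous_domRestrict]
      have e : (↑H : Set (GK i₀)).domRestrict c' = fun σ => c σ := by
        funext σ
        exact hval' σ σ.2
      rw [e]
      exact hcc
    · refine (continuousOn_const (c := (0 : ℤ_[3]))).congr fun σ hσ => ?_
      rw [hc']
      exact dif_neg hσ
  obtain ⟨y, hy⟩ := h c' hcont (fun σ hσ τ hτ => by
    rw [hval' σ hσ, hval' τ hτ, hval' (σ * τ) (mul_mem hσ hτ)]
    exact hc ⟨σ, hσ⟩ ⟨τ, hτ⟩) (by
    rintro D (⟨p, hp, ι, hp3, rfl⟩ | ⟨ι, rfl⟩)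
    · refine ⟨0, ?_⟩
      rintro σ ⟨⟨τ, hcmp, hin⟩, hσ⟩
      rw [hval' σ hσ, mul_zero]
      exact h1 p ι hp3 τ ⟨σ, hσ⟩ hcmp hin
    · obtain ⟨y, hy⟩ := h3 ι
      refine ⟨y, ?_⟩
      rintro σ ⟨⟨τ, hcmp⟩, hσ⟩
      rw [hval' σ hσ]
      exact hy τ ⟨σ, hσ⟩ hcmp)
  refine ⟨y, fun σ => ?_⟩
  have h2 := hy σ σ.2
  rw [hval' σ σ.2] at h2
  exact h2

/-! ### Kummer characters -/

/-- the fields generated by cube roots of integral elements -/
structure Kf (hi : i₀ ^ 2 + i₀ + 1 = 0) {n : ℕ} (s : Fin n → QB) (z : Fin n → Ei) : Prop where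
  ne : ∀ i, z i ≠ 0
  root : ∀ i, s i ^ 3 = ev i₀ hi (z i)

/-- the product -/
noncomputable def pr (s : Fin 0 → QB) : QB := 1

section
variable {hi : i₀ ^ 2 + i₀ + 1 = 0}

theorem exists_hm {z : Ei} (hz : z ≠ 0) : ∃ a : GK i₀ → ZMod 3, Hm a ∧ Kc hi z a := by
  obtain ⟨χ, h1, h2, h3⟩ := exists_kc hi hz
  exact ⟨χ, ⟨h2, h3⟩, h1⟩

lemma kc_fix {z : Ei} (hz : z ≠ 0) {a : GK i₀ → ZMod 3} (h : Kc hi z a) {s : QB}
    (hs : s ^ 3 = ev i₀ hi z) (σ : GK i₀) : a σ = 0 ↔ σ s = s := by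
  rw [h s hs σ]
  constructor
  · intro h0
    rw [h0, ZMod.val_zero, pow_zero, one_mul]
  · intro h0
    apply i₀_inj (hi := hi)
    apply mul_right_cancel₀ (root_ne hz hs)
    rw [h0, ZMod.val_zero, pow_zero, one_mul]

/-- the fixing group of a set -/
lemma mem_fixS {S : Set QB} {σ : GK i₀} :
    σ ∈ (IntermediateField.adjoin (KK i₀) S).fixingSubgroup ↔ ∀ s ∈ S, σ s = s := by
  rw [IntermediateField.mem_fixingSubgroup_iff]
  constructor
  · intro h s hs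
    exact h s (IntermediateField.subset_adjoin (KK i₀) _ hs)
  · intro h x hx
    have h1 : IntermediateField.adjoin (KK i₀) S ≤
        IntermediateField.fixedField (Subgroup.zpowers σ) := by
      rw [IntermediateField.adjoin_le_iff]
      intro s hs
      show s ∈ IntermediateField.fixedField (Subgroup.zpowers σ)
      rw [IntermediateField.mem_fixedField_iff]
      intro τ hτ
      obtain ⟨k, rfl⟩ := Subgroup.mem_zpowers_iff.1 hτ
      have h4 : σ ∈ MulAction.stabilizer (GK i₀) s := h s hs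
      exact (MulAction.stabilizer (GK i₀) s).zpow_mem h4 k
    have h2 := h1 hx
    rw [IntermediateField.mem_fixedField_iff] at h2
    exact h2 σ (Subgroup.mem_zpowers σ)

/-- the product of powers -/
lemma kc_prod {n : ℕ} {s : Fin n → QB} {z : Fin n → Ei} (hK : Kf hi s z)
    {a : Fin n → GK i₀ → ZMod 3} (ha : ∀ i, Kc hi (z i) (a i)) (x : Fin n → ZMod 3) (σ : GK i₀) :
    ∑ i, x i * a i σ = 0 ↔ σ (∏ i, s i ^ (x i).val) = ∏ i, s i ^ (x i).val := by
  have h1 : σ (∏ i, s i ^ (x i).val) = i₀ ^ (∑ i, x i * a i σ).val * ∏ i, s i ^ (x i).val := by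
    rw [map_prod]
    have h2 : ∀ T : Finset (Fin n), ∏ i ∈ T, σ (s i ^ (x i).val) =
        i₀ ^ (∑ i ∈ T, x i * a i σ).val * ∏ i ∈ T, s i ^ (x i).val := by
      intro T
      induction T using Finset.induction_on with
      | empty => simp
      | insert i T hiT ih =>
        rw [Finset.prod_insert hiT, Finset.prod_insert hiT, Finset.sum_insert hiT, ih,
          i₀_add (hi := hi), map_pow, ha i _ (hK.root i) σ, mul_pow, ← pow_mul]
        have h3 : i₀ ^ ((a i σ).val * (x i).val) = i₀ ^ (x i * a i σ).val := by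
          rw [i₀_mod (hi := hi)]
          congr 2
          push_cast
          rw [ZMod.natCast_zmod_val, ZMod.natCast_zmod_val, mul_comm]
        rw [h3]
        ring
    exact h2 _
  have h0 : ∏ i, s i ^ (x i).val ≠ 0 :=
    Finset.prod_ne_zero_iff.2 fun i _ => pow_ne_zero _ (root_ne (hK.ne i) (hK.root i))
  rw [h1]
  constructor
  · intro h
    rw [h, ZMod.val_zero, pow_zero, one_mul]
  · intro h
    apply i₀_inj (hi := hi)
    apply mul_right_cancel₀ h0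
    rw [h, ZMod.val_zero, pow_zero, one_mul]

lemma open_fixS {n : ℕ} {s : Fin n → QB} {z : Fin n → Ei} (hK : Kf hi s z) :
    IsOpen (((IntermediateField.adjoin (KK i₀) (Set.range s)).fixingSubgroup : Subgroup (GK i₀)) :
      Set (GK i₀)) := by
  have : FiniteDimensional (KK i₀) (IntermediateField.adjoin (KK i₀) (Set.range s)) :=
    IntermediateField.finiteDimensional_adjoin fun x _ => Algebra.IsIntegral.isIntegral x
  exact IntermediateField.fixingSubgroup_isOpen _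

/-- **The descent.** -/
theorem descent {r : ℤ} (hr : r ≠ 0) {n : ℕ} {s : Fin (n + 1) → QB} {z : Fin (n + 1) → Ei}
    (hK : Kf hi s z) (h : ∀ x : Fin (n + 1) → ZMod 3, x ≠ 0 →
      SZ (IntermediateField.adjoin (KK i₀) {∏ i, s i ^ (x i).val}).fixingSubgroup r) :
    SZ (IntermediateField.adjoin (KK i₀) (Set.range s)).fixingSubgroup r := by
  choose a ha hka using fun i => exists_hm (hi := hi) (hK.ne i)
  apply sz_of_zero (open_fixS hK)
  have h1 := fam (sys hi hr) n a ha fun x hx => by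
    have h2 := zero_of_sz (h x hx)
    have e : ((IntermediateField.adjoin (KK i₀) {∏ i, s i ^ (x i).val}).fixingSubgroup :
        Set (GK i₀)) = {σ | ∑ i, x i * a i σ = 0} := by
      ext σ
      rw [SetLike.mem_coe, mem_fix]
      exact (kc_prod hK hka x σ).symm
    rw [e] at h2
    exact h2
  have e : ((IntermediateField.adjoin (KK i₀) (Set.range s)).fixingSubgroup : Set (GK i₀)) =
      {σ | ∀ i, a i σ = 0} := by
    ext σ
    rw [SetLike.mem_coe, mem_fixS]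
    simp only [Set.forall_mem_range]
    exact forall_congr' fun i => (kc_fix (hK.ne i) (hka i) (hK.root i) σ).symm
  rw [e]
  exact h1

/-- **Going down to a subfield.** -/
theorem down {r : ℤ} (hr : r ≠ 0) {n : ℕ} {s : Fin n → QB} {z : Fin n → Ei}
    (hK : Kf hi s z) (h : SZ (IntermediateField.adjoin (KK i₀) (Set.range s)).fixingSubgroup r)
    {H : Subgroup (GK i₀)} (hH : (IntermediateField.adjoin (KK i₀) (Set.range s)).fixingSubgroup ≤ H) :
    SZ H r := by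
  choose a ha hka using fun i => exists_hm (hi := hi) (hK.ne i)
  have hop : IsOpen (H : Set (GK i₀)) := Subgroup.isOpen_mono hH (open_fixS hK)
  apply sz_of_zero hop
  refine desc (sys hi hr) hH (fun σ hσ τ hτ => mul_mem hσ hτ) (fun σ hσ => ?_) (zero_of_sz h)
  rw [SetLike.mem_coe, mem_fixS]
  simp only [Set.forall_mem_range]
  exact fun i => (kc_fix (hK.ne i) (hka i) (hK.root i) _).1 ((ha i).cube σ)

end

end Pool.Agent.D0H69.SM
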