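import Pool.Agent.D0H69.SM.Abr
import Pool.Agent.D0H69.SM.Gal

/-!
# No new classes: Galois groups
-/

set_option autoImplicit false
set_option linter.unusedVariables false
set_option linter.unusedSectionVars false

open scoped Classical

namespace Pool.Agent.D0H69.SM

open Pool.Agent.Y692.QS
open Pool.Agent.Y715.T.Gi Pool.Agent.Y715.T.Nr Pool.Agent.Y715.T.Red Pool.Agent.Y715.T.Df
open Pool.Agent.Y715.T.Sel
open Pool.Agent.N848.Sch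

variable {i₀ : QB}

/-- the cocycles of the locally trivial classes over the field with the group `H` -/
structure Rw (H : Subgroup (GK i₀)) (r : ℤ) (c : H → ℤ_[3]) : Prop where
  cont : Continuous c
  mul : ∀ σ τ : H, c (σ * τ) = c σ + ch i₀ r (σ : GK i₀) * c τ
  away : ∀ (p : ℕ) [Fact p.Prime] (ι : QB →ₐ[ℚ] PadicAlgCl p), p ≠ 3 →
      ∀ (τ : Au p) (σ : H), Cmp ι τ (σ : GK i₀) → Inert τ → c σ = 0
  three : ∀ (ι : QB →ₐ[ℚ] PadicAlgCl 3), ∃ y : ℤ_[3], ∀ (τ : Au 3) (σ : H),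
      Cmp ι τ (σ : GK i₀) → c σ = (ch i₀ r (σ : GK i₀) - 1) * y

theorem rw_of_sh {H : Subgroup (GK i₀)} {r : ℤ} {c : GK i₀ → ℤ_[3]}
    (h : Sh (ch i₀ r) (SS i₀) (H : Set (GK i₀)) c) : Rw H r (fun σ => c σ) where
  cont := h.cont.comp continuous_subtype_val
  mul σ τ := h.co σ σ.2 τ τ.2
  away p _ ι hp τ σ hcmp hin := by
    obtain ⟨z, hz⟩ := h.loc _ (Or.inl ⟨p, inferInstance, ι, hp, rfl⟩)
    show c σ = 0
    rw [hz σ ⟨⟨τ, hcmp, hin⟩, σ.2⟩, ch_inert hp hcmp hin, sub_self, zero_mul]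
  three ι := by
    obtain ⟨z, hz⟩ := h.loc _ (Or.inr ⟨ι, rfl⟩)
    exact ⟨z, fun τ σ hcmp => hz σ ⟨⟨τ, hcmp⟩, σ.2⟩⟩

theorem sh_of_rw {H : Subgroup (GK i₀)} (hop : IsOpen (H : Set (GK i₀))) {r : ℤ} {c : H → ℤ_[3]}
    (h : Rw H r c) : ∃ c' : GK i₀ → ℤ_[3], Sh (ch i₀ r) (SS i₀) (H : Set (GK i₀)) c' ∧
      ∀ σ : H, c' σ = c σ := by
  set c' : GK i₀ → ℤ_[3] := fun σ => if h : σ ∈ H then c ⟨σ, h⟩ else 0 with hc'
  have hval' : ∀ (σ : GK i₀) (h : σ ∈ H), c' σ = c ⟨σ, h⟩ := by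
    intro σ h
    rw [hc']
    exact dif_pos h
  have hclop : IsClopen (H : Set (GK i₀)) := ⟨Subgroup.isClosed_of_isOpen H hop, hop⟩
  have hcont : Continuous c' := by
    rw [← continuousOn_univ, ← Set.union_compl_self (H : Set (GK i₀))]
    refine ContinuousOn.union_of_isOpen ?_ ?_ hclop.isOpen hclop.compl.isOpen
    · rw [continuousOn_iff_continuous_domRestrict]
      have e : (↑H : Set (GK i₀)).domRestrict c' = fun σ => c σ := by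
        funext σ
        exact hval' σ σ.2
      rw [e]
      exact h.cont
    · refine (continuousOn_const (c := (0 : ℤ_[3]))).congr fun σ hσ => ?_
      rw [hc']
      exact dif_neg hσ
  refine ⟨c', ⟨hcont, fun σ hσ τ hτ => ?_, ?_⟩, fun σ => hval' σ σ.2⟩
  · rw [hval' σ hσ, hval' τ hτ, hval' (σ * τ) (mul_mem hσ hτ)]
    exact h.mul ⟨σ, hσ⟩ ⟨τ, hτ⟩
  · rintro D (⟨p, hp, ι, hp3, rfl⟩ | ⟨ι, rfl⟩)
    · refine ⟨0, ?_⟩
      rintro σ ⟨⟨τ, hcmp, hin⟩, hσ⟩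
      rw [hval' σ hσ, mul_zero]
      exact h.away p ι hp3 τ ⟨σ, hσ⟩ hcmp hin
    · obtain ⟨y, hy⟩ := h.three ι
      refine ⟨y, ?_⟩
      rintro σ ⟨⟨τ, hcmp⟩, hσ⟩
      rw [hval' σ hσ]
      exact hy τ ⟨σ, hσ⟩ hcmp

/-- the restriction is injective -/
theorem inj_res (hi : i₀ ^ 2 + i₀ + 1 = 0) {r : ℤ} (hr : r ≠ 0) {H F : Subgroup (GK i₀)}
    (h3 : ∀ σ ∈ F, σ * σ * σ ∈ H) {c : F → ℤ_[3]} (hc : Rw F r c) {z : ℤ_[3]}
    (hz : ∀ σ : F, (σ : GK i₀) ∈ H → c σ = (ch i₀ r (σ : GK i₀) - 1) * z) :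
    ∀ σ : F, c σ = (ch i₀ r (σ : GK i₀) - 1) * z := by
  intro σ
  have hS := sys hi hr
  have h1 : c (σ * σ * σ) = (1 + ch i₀ r (σ : GK i₀) + ch i₀ r (σ : GK i₀) * ch i₀ r (σ : GK i₀)) *
      c σ := by
    rw [hc.mul, hc.mul]
    have : ch i₀ r ((σ * σ : F) : GK i₀) = ch i₀ r (σ : GK i₀) * ch i₀ r (σ : GK i₀) :=
      hS.mul _ _
    rw [this]
    ring
  have h2 := hz (σ * σ * σ) (h3 σ σ.2)
  have h4 : ch i₀ r ((σ * σ * σ : F) : GK i₀) =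
      ch i₀ r (σ : GK i₀) * ch i₀ r (σ : GK i₀) * ch i₀ r (σ : GK i₀) := by
    have e : ((σ * σ * σ : F) : GK i₀) = (σ : GK i₀) * σ * σ := rfl
    rw [e, hS.mul, hS.mul]
  rw [h1, h4] at h2
  have h5 : (1 + ch i₀ r (σ : GK i₀) + ch i₀ r (σ : GK i₀) * ch i₀ r (σ : GK i₀)) *
      (c σ - (ch i₀ r (σ : GK i₀) - 1) * z) = 0 := by linear_combination h2
  exact sub_eq_zero.1 ((mul_eq_zero.1 h5).resolve_left (nz _))

/-- the restriction is surjective up to powers of three -/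
theorem sur_res {r : ℤ} {H F : Subgroup (GK i₀)} (hop : IsOpen (H : Set (GK i₀)))
    {a : GK i₀ → ZMod 3} (hHF : (H : Set (GK i₀)) = {σ | σ ∈ (F : Set (GK i₀)) ∧ a σ = 0})
    (hN : Nw (ch i₀ r) (SS i₀) (F : Set (GK i₀)) a) {c : H → ℤ_[3]} (hc : Rw H r c) :
    ∃ (n : ℕ) (c' : F → ℤ_[3]), Rw F r c' ∧ ∃ z : ℤ_[3], ∀ (σ : H) (hσ : (σ : GK i₀) ∈ F),
      3 ^ n * c σ = c' ⟨σ, hσ⟩ + (ch i₀ r (σ : GK i₀) - 1) * z := by
  obtain ⟨c₁, h1, h2⟩ := sh_of_rw hop hc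
  rw [hHF] at h1
  obtain ⟨n, c', hc', z, hz⟩ := hN c₁ h1
  refine ⟨n, _, rw_of_sh hc', z, fun σ hσ => ?_⟩
  have h3 : (σ : GK i₀) ∈ {σ | σ ∈ (F : Set (GK i₀)) ∧ a σ = 0} := by
    rw [← hHF]
    exact σ.2
  rw [← h2 σ]
  exact hz σ h3.1 h3.2

end Pool.Agent.D0H69.SM
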