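import Pool.Agent.D0H69.SM.Bas
import Pool.Agent.D0H69.SM.Rel

/-!
# Schneider's conjecture over `F(∛D)`
-/

set_option autoImplicit false
set_option linter.unusedVariables false
set_option linter.unusedSectionVars false

open scoped Classical

namespace Pool.Agent.D0H69.SM

open NumberField Filter Topology
open Pool.Agent.Y692.QS (Ei w nr toC nr_mul)
open Pool.Agent.Y715.T.Gi Pool.Agent.Y715.T.Nr Pool.Agent.Y715.T.Red Pool.Agent.Y715.T.Df
open Pool.Agent.Y715.T.Sel
open Pool.Agent.N848.Sch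
open Pool.Agent.D0H10.KH (CFam)
open Pool.Agent.D0H50.SC (at_least)
open Pool.Agent.D0H69.L3K (fin_nr)
open Pool.Agent.Y703.XK (c9)
open Pool.Agent.D0H69.JTA (t_ALL JE lim_JEc)
open Pool.Agent.D0H69.JTB (Ind3)
open Pool.Agent.Y696.CTK (Tri ED)

variable {i₀ : QB} {hi : i₀ ^ 2 + i₀ + 1 = 0}

/-- the products -/
def vv {r : ℕ} (d : Fin r → Ei) (e : Fin r → ZMod 3) : Ei := ∏ i, d i ^ (e i).val

lemma vv_ne {r : ℕ} {d : Fin r → Ei} (hd : ∀ i, d i ≠ 0) (e : Fin r → ZMod 3) : vv d e ≠ 0 :=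
  Finset.prod_ne_zero_iff.2 fun i _ => pow_ne_zero _ (hd i)

lemma vv_lam {r : ℕ} {d : Fin r → Ei} (hd : ∀ i, ¬ lam ∣ d i) (e : Fin r → ZMod 3) :
    ¬ lam ∣ vv d e := by
  intro h
  obtain ⟨i, -, h1⟩ := (prime_lam.dvd_finsetProd_iff _).1 h
  exact hd i (prime_lam.dvd_of_dvd_pow h1)

/-- no nontrivial product is a cube -/
def Idp {r : ℕ} (d : Fin r → Ei) : Prop :=
  ∀ a : Fin r → ZMod 3, (∃ i, a i ≠ 0) → ∀ c c' : Ei, c ≠ 0 → vv d a * c ^ 3 ≠ c' ^ 3

/-- the elements of `K` -/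
lemma frac_ei (hi : i₀ ^ 2 + i₀ + 1 = 0) {z : QB} (hz : z ∈ KK i₀) : ∃ m n : Ei, n ≠ 0 ∧
    z * ev i₀ hi n = ev i₀ hi m := by
  obtain ⟨a, b, e⟩ := KK_ex hi hz
  have hda : (a.den : QB) ≠ 0 := by exact_mod_cast a.den_ne_zero
  have hdb : (b.den : QB) ≠ 0 := by exact_mod_cast b.den_ne_zero
  refine ⟨⟨a.num * b.den, b.num * a.den⟩, ((a.den * b.den : ℤ) : Ei), ?_, ?_⟩
  · intro h
    have h1 := congrArg (ev i₀ hi) h
    rw [map_intCast, map_zero] at h1
    push_cast at h1
    exact mul_ne_zero hda hdb h1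
  · rw [map_intCast, ev_apply, e]
    push_cast
    have ha : (a : QB) * a.den = a.num := by
      have := Rat.mul_den_eq_num a
      exact_mod_cast this
    have hb : (b : QB) * b.den = b.num := by
      have := Rat.mul_den_eq_num b
      exact_mod_cast this
    linear_combination (b.den : QB) * ha + (a.den : QB) * i₀ * hb

lemma ev_mem' (z : Ei) : ev i₀ hi z ∈ KK i₀ := by
  rw [ev_apply]
  exact add_mem (intCast_mem _ _) (mul_mem (intCast_mem _ _) i₀_mem)

/-- the elements as elements of the field -/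
noncomputable def ek (hi : i₀ ^ 2 + i₀ + 1 = 0) (z : Ei) : KK i₀ := ⟨ev i₀ hi z, ev_mem' z⟩

lemma prod_ek {r : ℕ} (d : Fin r → Ei) (a : Fin r → ZMod 3) :
    ((∏ i, ek hi (d i) ^ (a i).val : KK i₀) : QB) = ev i₀ hi (vv d a) := by
  unfold vv
  rw [map_prod]
  push_cast
  refine Finset.prod_congr rfl fun i _ => ?_
  rw [map_pow]
  rfl

theorem idp_ind {r : ℕ} {d : Fin r → Ei} (h : Idp d) : Ind3 (fun i => ek hi (d i)) := by
  rintro a ha ⟨z, hz⟩
  obtain ⟨m, n, hn, hmn⟩ := frac_ei hi z.2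
  refine h a ha n m hn ?_
  rw [← sub_eq_zero]
  apply ev_inj hi
  have h1 := congrArg (fun x : KK i₀ => (x : QB)) hz
  simp only [prod_ek] at h1
  push_cast at h1
  rw [map_sub, map_mul, map_pow, map_pow, ← h1, ← hmn]
  ring

theorem ind_idp {r : ℕ} {d : Fin r → Ei} (h : Ind3 (fun i => ek hi (d i))) : Idp d := by
  intro a ha c c' hc heq
  apply h a ha
  refine ⟨ek hi c' / ek hi c, ?_⟩
  apply Subtype.ext
  have h1 := congrArg (ev i₀ hi) heq
  rw [map_mul, map_pow, map_pow] at h1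
  rw [prod_ek]
  have h2 : ev i₀ hi c ≠ 0 := ev_ne hi hc
  show (ev i₀ hi c' / ev i₀ hi c) ^ 3 = _
  rw [div_pow, ← h1]
  field_simp

/-- the representatives are different -/
theorem idp_dist {r : ℕ} {d : Fin r → Ei} (hd : ∀ i, d i ≠ 0) (h : Idp d) (e e' : Fin r → ZMod 3)
    (hee : e ≠ e') (c c' : Ei) (hc : c ≠ 0) (hc' : c' ≠ 0) :
    vv d e * c ^ 3 ≠ vv d e' * c' ^ 3 := by
  intro heq
  choose ε hε using fun i => Pool.Agent.D0H69.JTL.val_split (e i) (e' i)
  refine h (fun i => e i - e' i) ?_ c (c' * ∏ i, d i ^ (ε i).val) hc ?_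
  · by_contra hcon
    push Not at hcon
    exact hee (funext fun i => sub_eq_zero.1 (hcon i))
  · apply mul_right_cancel₀ (vv_ne hd e')
    have h1 : vv d (fun i => e i - e' i) * vv d e' = vv d e * (∏ i, d i ^ (ε i).val) ^ 3 := by
      unfold vv
      rw [← Finset.prod_mul_distrib, ← Finset.prod_pow, ← Finset.prod_mul_distrib]
      refine Finset.prod_congr rfl fun i _ => ?_
      rw [← pow_add, hε i, pow_add, ← pow_mul, mul_comm 3]
    calc vv d (fun i => e i - e' i) * c ^ 3 * vv d e'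
        = (vv d (fun i => e i - e' i) * vv d e') * c ^ 3 := by ring
      _ = (vv d e * c ^ 3) * (∏ i, d i ^ (ε i).val) ^ 3 := by rw [h1]; ring
      _ = (c' * ∏ i, d i ^ (ε i).val) ^ 3 * vv d e' := by rw [heq]; ring

/-- adding an element of valuation one or two -/
theorem idp_cons {r : ℕ} {d : Fin r → Ei} (hl : ∀ i, ¬ lam ∣ d i) (h : Idp d) {D : Ei} {a : ℕ}
    (ha : a = 1 ∨ a = 2) (hD : lam ^ a ∣ D ∧ ¬ lam ^ (a + 1) ∣ D) :
    Idp (Fin.cons D d : Fin (r + 1) → Ei) := by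
  intro y hy c c' hc heq
  have e1 : vv (Fin.cons D d : Fin (r + 1) → Ei) y = D ^ (y 0).val * vv d (fun i => y i.succ) := by
    unfold vv
    rw [Fin.prod_univ_succ]
    simp only [Fin.cons_zero, Fin.cons_succ]
  rw [e1] at heq
  by_cases h0 : y 0 = 0
  · rw [h0, ZMod.val_zero, pow_zero, one_mul] at heq
    refine h (fun i => y i.succ) ?_ c c' hc heq
    obtain ⟨i, hi'⟩ := hy
    by_contra hcon
    push Not at hcon
    apply hi'
    exact Fin.cases h0 (fun i => hcon i) i
  · have hD0 : D ≠ 0 := by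
      rintro rfl
      exact hD.2 (dvd_zero _)
    have hv := vv_lam hl (fun i => y i.succ)
    have hd0 : ∀ i, d i ≠ 0 := fun i h1 => hl i (by rw [h1]; exact dvd_zero _)
    have hc' : c' ≠ 0 := by
      rintro rfl
      rw [zero_pow three_ne_zero] at heq
      exact mul_ne_zero (mul_ne_zero (pow_ne_zero _ hD0) (vv_ne hd0 _)) (pow_ne_zero 3 hc) heq
    have hfin : ∀ x : Ei, x ≠ 0 → FiniteMultiplicity lam x := fun x hx =>
      FiniteMultiplicity.of_prime_left prime_lam hx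
    have e2 : emultiplicity lam (D ^ (y 0).val * vv d (fun i => y i.succ) * c ^ 3) =
        (y 0).val * a + 3 * emultiplicity lam c := by
      rw [emultiplicity_mul prime_lam, emultiplicity_mul prime_lam, emultiplicity_pow prime_lam,
        emultiplicity_pow prime_lam, emultiplicity_eq_zero.2 hv, add_zero,
        emultiplicity_eq_coe.2 hD]
      norm_num
    rw [heq, emultiplicity_pow prime_lam, (hfin c hc).emultiplicity_eq_multiplicity,
      (hfin c' hc').emultiplicity_eq_multiplicity] at e2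
    have e3 : 3 * multiplicity lam c' = (y 0).val * a + 3 * multiplicity lam c := by
      exact_mod_cast e2
    have h3 : ∀ t : ZMod 3, t ≠ 0 → t.val = 1 ∨ t.val = 2 := by decide
    rcases h3 _ h0 with h4 | h4 <;> rw [h4] at e3 <;> rcases ha with rfl | rfl <;> omega

/-- the data of the field -/
structure Rd (hi : i₀ ^ 2 + i₀ + 1 = 0) (S : Set QB) : Prop where
  fin : S.Finite
  root : ∀ s ∈ S, ∃ z : Ei, ¬ lam ∣ z ∧ s ^ 3 = ev i₀ hi z

/-- **The basis.** -/
theorem basis_ei {S : Set QB} (hS : Rd hi S) : ∃ (r : ℕ) (d : Fin r → Ei) (x : Fin r → QB),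
    (∀ i, ¬ lam ∣ d i) ∧ Kf hi x d ∧ Idp d ∧
    IntermediateField.adjoin (KK i₀) (Set.range x) = IntermediateField.adjoin (KK i₀) S ∧
    Module.finrank (KK i₀) (IntermediateField.adjoin (KK i₀) S) = 3 ^ r := by
  have hω : (⟨i₀, i₀_mem⟩ : KK i₀) ^ 2 + ⟨i₀, i₀_mem⟩ + 1 = 0 := Subtype.ext hi
  have hfd : FiniteDimensional (KK i₀) (IntermediateField.adjoin (KK i₀) S) := by
    have := hS.fin.to_subtype
    exact IntermediateField.finiteDimensional_adjoin fun x _ => Algebra.IsIntegral.isIntegral x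
  obtain ⟨r, d', x, hd', hxS, hx, hadj, hI⟩ := basis_in (L := QB) hω (S := S) (fun x hxS => by
    obtain ⟨z, -, hz⟩ := hS.root x hxS
    exact ⟨ek hi z, hz⟩)
  choose d hdl hdx using fun i => hS.root (x i) (hxS i)
  have hdd : ∀ i, d' i = ek hi (d i) := by
    intro i
    apply Subtype.ext
    have h1 := hx i
    rw [hdx i] at h1
    exact h1.symm
  have hI' : Ind3 (fun i => ek hi (d i)) := by
    have e : d' = fun i => ek hi (d i) := funext hdd
    rwa [e] at hI
  refine ⟨r, d, x, hdl, ⟨fun i h0 => hdl i (by rw [h0]; exact dvd_zero _), hdx⟩, ind_idp hI',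
    hadj, ?_⟩
  rw [← hadj]
  exact deg_adj hω hd' hx hI

/-- the comparison of the two fields -/
def Sam (H F : Subgroup (GK i₀)) (n : ℤ) : Prop :=
  (SZ H n ↔ SZ F n) ∧
  (∀ c : F → ℤ_[3], Rw F n c → ∀ z : ℤ_[3],
    (∀ σ : F, (σ : GK i₀) ∈ H → c σ = (ch i₀ n (σ : GK i₀) - 1) * z) →
    ∀ σ : F, c σ = (ch i₀ n (σ : GK i₀) - 1) * z) ∧
  (∀ c : H → ℤ_[3], Rw H n c → ∃ (m : ℕ) (c' : F → ℤ_[3]), Rw F n c' ∧ ∃ z : ℤ_[3],
    ∀ (σ : H) (hσ : (σ : GK i₀) ∈ F),
      3 ^ m * c σ = c' ⟨σ, hσ⟩ + (ch i₀ n (σ : GK i₀) - 1) * z)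

/-- **The comparison.** -/
theorem sam_of {r : ℕ} {d : Fin r → Ei} {x : Fin r → QB} (hK : Kf hi x d) {D : Ei} (hD0 : D ≠ 0)
    {s : QB} (hs : s ^ 3 = ev i₀ hi D) {n : ℤ} (hn : n ≠ 0)
    (hkey : ∀ y : Fin (r + 1) → ZMod 3, y 0 = 1 →
      SZ (IntermediateField.adjoin (KK i₀)
        {∏ i, (Fin.cons s x : Fin (r + 1) → QB) i ^ (y i).val}).fixingSubgroup n) :
    Sam (IntermediateField.adjoin (KK i₀) (insert s (Set.range x))).fixingSubgroup
      (IntermediateField.adjoin (KK i₀) (Set.range x)).fixingSubgroup n := by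
  set X : Fin (r + 1) → QB := Fin.cons s x with hX
  set Z : Fin (r + 1) → Ei := Fin.cons D d with hZ
  have hKX : Kf hi X Z := ⟨fun i => Fin.cases hD0 (fun i => hK.ne i) i,
    fun i => Fin.cases hs (fun i => hK.root i) i⟩
  have hrange : Set.range X = insert s (Set.range x) := Fin.range_cons s x
  have hle : IntermediateField.adjoin (KK i₀) (Set.range x) ≤
      IntermediateField.adjoin (KK i₀) (insert s (Set.range x)) :=
    IntermediateField.adjoin.mono _ _ _ (Set.subset_insert s _)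
  choose b hb hkb using fun i => exists_hm (hi := hi) (hKX.ne i)
  refine ⟨⟨fun h => ?_, fun h => ?_⟩, fun c hc z hz => ?_, fun c hc => ?_⟩
  · rw [← hrange] at h hle
    exact down hn hKX h (IntermediateField.fixingSubgroup_antitone hle)
  · rw [← hrange]
    refine descent hn hKX fun y hy => ?_
    by_cases h0 : y 0 = 0
    · refine down hn hK h ?_
      apply IntermediateField.fixingSubgroup_antitone
      rw [IntermediateField.adjoin_le_iff, Set.singleton_subset_iff]
      rw [Fin.prod_univ_succ]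
      simp only [hX, Fin.cons_zero, Fin.cons_succ]
      rw [h0, ZMod.val_zero, pow_zero, one_mul]
      exact prod_mem fun i _ => pow_mem
        (IntermediateField.subset_adjoin (KK i₀) (Set.range x) (Set.mem_range_self i)) _
    · have hsq : ∀ t : ZMod 3, t ≠ 0 → t * t = 1 := by decide
      have h1 := hkey (fun i => y 0 * y i) (hsq _ h0)
      have e : (IntermediateField.adjoin (KK i₀) {∏ i, X i ^ (y i).val}).fixingSubgroup =
          (IntermediateField.adjoin (KK i₀) {∏ i, X i ^ (y 0 * y i).val}).fixingSubgroup := by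
        ext σ
        rw [mem_fix, mem_fix, ← kc_prod hKX hkb y σ, ← kc_prod hKX hkb (fun i => y 0 * y i) σ]
        have e2 : ∑ i, y 0 * y i * b i σ = y 0 * ∑ i, y i * b i σ := by
          rw [Finset.mul_sum]
          exact Finset.sum_congr rfl fun i _ => by ring
        rw [e2]
        constructor
        · intro h2
          rw [h2, mul_zero]
        · intro h2
          exact (mul_eq_zero.1 h2).resolve_left h0
      rw [e]
      exact h1
  · refine inj_res hi hn (H := (IntermediateField.adjoin (KK i₀) (insert s (Set.range x))).fixingSubgroup)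
      (fun σ _ => ?_) hc hz
    rw [← hrange, mem_fixS]
    simp only [Set.forall_mem_range]
    exact fun i => (kc_fix (hKX.ne i) (hkb i) (hKX.root i) _).1 ((hb i).cube σ)
  · have hop : IsOpen (((IntermediateField.adjoin (KK i₀) (insert s (Set.range x))).fixingSubgroup :
        Subgroup (GK i₀)) : Set (GK i₀)) := by
      rw [← hrange]
      exact open_fixS hKX
    have hN := rel (sys hi hn) r (b 0) (fun i => b i.succ) (hb 0) (fun i => hb _) fun y => by
      have h1 := zero_of_sz (hkey (Fin.cons 1 y) (Fin.cons_zero _ _))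
      have e : ((IntermediateField.adjoin (KK i₀)
          {∏ i, X i ^ ((Fin.cons 1 y : Fin (r + 1) → ZMod 3) i).val}).fixingSubgroup :
          Set (GK i₀)) = {σ | b 0 σ + ∑ i, y i * b i.succ σ = 0} := by
        ext σ
        rw [SetLike.mem_coe, mem_fix, ← kc_prod hKX hkb (Fin.cons 1 y) σ, Fin.sum_univ_succ]
        simp only [Fin.cons_zero, Fin.cons_succ, one_mul, Set.mem_ofPred_eq]
      rw [e] at h1
      exact h1
    have eF : {σ : GK i₀ | ∀ i : Fin r, b i.succ σ = 0} =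
        ((IntermediateField.adjoin (KK i₀) (Set.range x)).fixingSubgroup : Set (GK i₀)) := by
      ext σ
      rw [SetLike.mem_coe, mem_fixS]
      simp only [Set.forall_mem_range]
      exact forall_congr' fun i => kc_fix (hK.ne i) (hkb i.succ) (hK.root i) σ
    rw [eF] at hN
    refine sur_res hop (a := b 0) ?_ hN hc
    ext σ
    rw [SetLike.mem_coe, mem_fixS, ← eF]
    constructor
    · intro h
      refine ⟨fun i => (kc_fix (hK.ne i) (hkb i.succ) (hK.root i) σ).2
        (h (x i) (Set.mem_insert_of_mem _ ⟨i, rfl⟩)), ?_⟩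
      exact (kc_fix hD0 (hkb 0) hs σ).2 (h s (Set.mem_insert _ _))
    · rintro ⟨h1, h2⟩ t (rfl | ⟨i, rfl⟩)
      · exact (kc_fix hD0 (hkb 0) hs σ).1 h2
      · exact (kc_fix (hK.ne i) (hkb i.succ) (hK.root i) σ).1 (h1 i)

/-- **The comparison under the criterion.** -/
theorem sam_cru {r : ℕ} {d : Fin r → Ei} {x : Fin r → QB} (hK : Kf hi x d) {D : Ei} (hD0 : D ≠ 0)
    {s : QB} (hs : s ^ 3 = ev i₀ hi D) (h : ∀ e : Fin r → ZMod 3, CrU (vv d e * D)) {n : ℤ}
    (hn : n ≠ 0) :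
    Sam (IntermediateField.adjoin (KK i₀) (insert s (Set.range x))).fixingSubgroup
      (IntermediateField.adjoin (KK i₀) (Set.range x)).fixingSubgroup n := by
  refine sam_of hK hD0 hs hn fun y h0 => ?_
  refine sz_cru (hi := hi) (h fun i => y i.succ) ?_ hn
  rw [Fin.prod_univ_succ]
  simp only [Fin.cons_zero, Fin.cons_succ]
  rw [h0]
  have e1 : ((1 : ZMod 3)).val = 1 := rfl
  rw [e1, pow_one, mul_pow, hs, ← Finset.prod_pow, map_mul, mul_comm]
  congr 1
  unfold vv
  rw [map_prod]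
  refine Finset.prod_congr rfl fun i _ => ?_
  rw [← pow_mul, mul_comm, pow_mul, hK.root i, map_pow]

/-- **The vanishing under the criterion.** -/
theorem sz_all {r : ℕ} {d : Fin (r + 1) → Ei} {x : Fin (r + 1) → QB} (hK : Kf hi x d)
    (h : ∀ e : Fin (r + 1) → ZMod 3, e ≠ 0 → CrU (vv d e)) {n : ℤ} (hn : n ≠ 0) :
    SZ (IntermediateField.adjoin (KK i₀) (Set.range x)).fixingSubgroup n := by
  refine descent hn hK fun y hy => ?_
  refine sz_cru (hi := hi) (h y hy) ?_ hn
  rw [← Finset.prod_pow]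
  unfold vv
  rw [map_prod]
  refine Finset.prod_congr rfl fun i _ => ?_
  rw [← pow_mul, mul_comm, pow_mul, hK.root i, map_pow]

/-- **The field `F(s)`.** -/
theorem main_one {K : Type} [Field K] [NumberField K] [IsCyclotomicExtension {3} ℚ K]
    (j : Ei ≃+* 𝓞 K) (hj : ∀ z : Ei, Algebra.norm ℤ (j z) = nr z) {S : Set QB}
    {r : ℕ} {d : Fin r → Ei} {x : Fin r → QB} (hl : ∀ i, ¬ lam ∣ d i) (hK : Kf hi x d) (hI : Idp d)
    (hadj : IntermediateField.adjoin (KK i₀) (Set.range x) = IntermediateField.adjoin (KK i₀) S)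
    {D : Ei} {a : ℕ} (ha : a = 1 ∨ a = 2) (hD : lam ^ a ∣ D ∧ ¬ lam ^ (a + 1) ∣ D)
    (hJ : JE j (vv d) D) {s : QB} (hs : s ^ 3 = ev i₀ hi D) :
    s ∉ IntermediateField.adjoin (KK i₀) S ∧ ∀ n : ℤ, n ≠ 0 →
      Sam (IntermediateField.adjoin (KK i₀) (insert s S)).fixingSubgroup
        (IntermediateField.adjoin (KK i₀) S).fixingSubgroup n := by
  have hω : (⟨i₀, i₀_mem⟩ : KK i₀) ^ 2 + ⟨i₀, i₀_mem⟩ + 1 = 0 := Subtype.ext hi
  have hD0 : D ≠ 0 := by
    rintro rfl
    exact hD.2 (dvd_zero _)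
  have hadj' : IntermediateField.adjoin (KK i₀) (insert s (Set.range x)) =
      IntermediateField.adjoin (KK i₀) (insert s S) := by
    rw [Set.insert_eq, Set.insert_eq, IntermediateField.adjoin_union,
      IntermediateField.adjoin_union, hadj]
  refine ⟨fun hmem => ?_, fun n hn => ?_⟩
  · set X : Fin (r + 1) → QB := Fin.cons s x with hX
    set Z : Fin (r + 1) → Ei := Fin.cons D d with hZ
    have hKX : Kf hi X Z := ⟨fun i => Fin.cases hD0 (fun i => hK.ne i) i,
      fun i => Fin.cases hs (fun i => hK.root i) i⟩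
    have hIX : Idp Z := idp_cons hl hI ha hD
    have hrange : Set.range X = insert s (Set.range x) := Fin.range_cons s x
    have hdeg : Module.finrank (KK i₀) (IntermediateField.adjoin (KK i₀) (Set.range X)) =
        3 ^ (r + 1) := deg_adj (L := QB) hω (d := fun i => ek hi (Z i)) (fun i h0 => by
      have h1 : ev i₀ hi (Z i) = 0 := congrArg (fun y : KK i₀ => (y : QB)) h0
      exact ev_ne hi (hKX.ne i) h1) (fun i => hKX.root i) (idp_ind hIX)
    have hdeg' : Module.finrank (KK i₀) (IntermediateField.adjoin (KK i₀) (Set.range x)) =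
        3 ^ r := deg_adj (L := QB) hω (d := fun i => ek hi (d i)) (fun i h0 => by
      have h1 : ev i₀ hi (d i) = 0 := congrArg (fun y : KK i₀ => (y : QB)) h0
      exact ev_ne hi (hK.ne i) h1) (fun i => hK.root i) (idp_ind hI)
    have h1 : IntermediateField.adjoin (KK i₀) (insert s S) =
        IntermediateField.adjoin (KK i₀) S := by
      refine le_antisymm ?_ (IntermediateField.adjoin.mono _ _ _ (Set.subset_insert s S))
      rw [IntermediateField.adjoin_le_iff]
      rintro t (rfl | ht)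
      · exact hmem
      · exact IntermediateField.subset_adjoin _ _ ht
    rw [hrange, hadj', h1, ← hadj, hdeg'] at hdeg
    have h2 : 3 ^ r < 3 ^ (r + 1) := Nat.pow_lt_pow_right (by norm_num) (Nat.lt_succ_self r)
    omega
  · rw [← hadj', ← hadj]
    refine sam_cru hK hD0 hs (fun e => ?_) hn
    obtain ⟨D', c, c', hc, hc', hD', heq, htri⟩ := hJ e
    exact cru_of_tri j hj hc hc' hD' heq htri (lam_dvd ha hc hc' (vv_lam hl _) hD heq)

/-- **The lower proportion.** -/
theorem low_sm {S : Set QB} (hS : Rd hi S) {a : ℕ} (ha : a = 1 ∨ a = 2) {b : ℝ}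
    (hb : b < c9 ^ Module.finrank (KK i₀) (IntermediateField.adjoin (KK i₀) S)) {Q : Ei → Prop}
    (hQ : ∀ D, CFam D → (∀ s : QB, s ^ 3 = ev i₀ hi D →
      s ∉ IntermediateField.adjoin (KK i₀) S ∧ ∀ n : ℤ, n ≠ 0 →
      Sam (IntermediateField.adjoin (KK i₀) (insert s S)).fixingSubgroup
        (IntermediateField.adjoin (KK i₀) S).fixingSubgroup n) → Q D) :
    ∀ᶠ X : ℕ in atTop,
      b * ({D : Ei | nr D ≤ X ∧ CFam D ∧ (lam ^ a ∣ D ∧ ¬ lam ^ (a + 1) ∣ D)}.ncard : ℝ) ≤
        ({D : Ei | nr D ≤ X ∧ CFam D ∧ ((lam ^ a ∣ D ∧ ¬ lam ^ (a + 1) ∣ D) ∧ Q D)}.ncard : ℝ) := by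
  obtain ⟨r, d, x, hl, hK, hI, hadj, hdeg⟩ := basis_ei hS
  have hcyc : IsCyclotomicExtension {3} ℚ (CyclotomicField 3 ℚ) :=
    CyclotomicField.isCyclotomicExtension 3 ℚ
  obtain ⟨⟨j, hj⟩, -⟩ := Pool.Agent.Y455.CTK.jex (CyclotomicField 3 ℚ)
  obtain ⟨hJLA, hTWI, hGEN4, hHALS, hBADQ, hLOCE, hREP, hPROD, hCFU, hTRI⟩ := t_ALL
  have h1 := lim_JEc j hJLA hTWI hGEN4 hHALS hBADQ hLOCE hREP hPROD hCFU hTRI hj
    (u := vv d) (fun e => vv_ne hK.ne e) (fun e e' hee c c' hc hc' =>
      idp_dist hK.ne hI e e' hee c c' hc hc') a (by rcases ha with rfl | rfl <;> norm_num)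
  have h2 : Fintype.card (Fin r → ZMod 3) =
      Module.finrank (KK i₀) (IntermediateField.adjoin (KK i₀) S) := by
    rw [hdeg]
    simp [ZMod.card]
  rw [h2] at h1
  refine at_least h1 hb fun X => Set.ncard_le_ncard (fun D hD => ?_)
    ((fin_nr X).subset fun z hz => hz.1)
  refine ⟨hD.1, hD.2.1, hD.2.2.1, hQ D hD.2.1 fun s hs => ?_⟩
  exact main_one j hj hl hK hI hadj ha hD.2.2.1 hD.2.2.2 hs

end Pool.Agent.D0H69.SM
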