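import Pool.Agent.D0H69.SM.Cub
import Pool.Agent.D0H69.JT.Exc

/-!
# Trivial Selmer groups imply the criterion
-/

set_option autoImplicit false
set_option linter.unusedVariables false
set_option linter.unusedSectionVars false

open scoped Classical

namespace Pool.Agent.D0H69.SM

open NumberField
open Pool.Agent.Y692.QS (Ei w nr toC nr_mul)
open Pool.Agent.Y715.T.Rec (cs)
open Pool.Agent.Y715.T.RecG (Pq)
open Pool.Agent.Y715.T.Gi (lam prime_lam)
open Pool.Agent.Y703.CT (Dt pD)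
open Pool.Agent.R419.KF (wt el)
open Pool.Agent.N883.FF (ClU ClP nq FamE)
open Pool.Agent.N883.FF.Tot (clp_pair)
open Pool.Agent.D0H43.L3 (yq)
open Pool.Agent.D0H10.KH
open Pool.Agent.D0H50.JL
open Pool.Agent.D0H50.SC
open Pool.Agent.D0H69.JT (GG Del)
open Pool.Agent.D0H69.JTA (t_ALL tri_neg JE)
open Pool.Agent.Y696.CTK (Tri ED)

theorem gdS_of_GG {a i : ZMod 3} (ha : a ≠ 0) {M S : Finset Ei} (h : GG a i M S) :
    GdS (qG i (-a)) M S := by
  unfold GG at h
  rw [if_neg ha] at h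
  intro v h1 h2 h3
  by_cases h4 : a = 1
  · rw [if_pos h4] at h
    subst h4
    refine (h v 0 (fun π hπ => ?_) ?_).1
    · rw [zero_mul, add_zero]
      exact h1 π hπ
    · rw [h2, mul_zero]
  · rw [if_neg h4] at h
    have key : ∀ x : ZMod 3, x ≠ 0 → ¬ x = 1 → x = 2 := by decide
    have h5 := key a ha h4
    subst h5
    have e : (-2 : ZMod 3) = 1 := by decide
    rw [e] at h1
    exact h v h1

/-- the pair of an element of the family -/
theorem fam_pair {z : Ei} (hz : FamE z) : ∃ (i : ZMod 3) (M S : Finset Ei), ClU M S ∧ S.Nonempty ∧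
    z = w ^ i.val * el M S := by
  obtain ⟨i, hi⟩ := hz.2.2
  have hw3 : (w : Ei) ^ i.val * w ^ (-i).val = 1 := by
    have : ∀ i : ZMod 3, (w : Ei) ^ i.val * w ^ (-i).val = 1 := by decide
    exact this i
  have h3 : (3 : Ei) ∣ w ^ (-i).val * z - 1 := by
    have h4 : w ^ (-i).val * z - 1 = w ^ (-i).val * (z - w ^ i.val) := by
      rw [mul_sub]
      congr 1
      rw [mul_comm, hw3]
    rw [h4]
    exact hi.mul_left _
  have e1 : w ^ i.val * (w ^ (-i).val * z) = z := by rw [← mul_assoc, hw3, one_mul]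
  have h5 : ClP (w ^ (-i).val * z) := ⟨h3, fun x hx => hz.2.1 x (by
    rw [← e1]
    exact hx.mul_left _)⟩
  obtain ⟨M, S, hMS, hel⟩ := clp_pair h5
  refine ⟨i, M, S, hMS, ?_, by rw [← hel, e1]⟩
  rw [Finset.nonempty_iff_ne_empty]
  rintro rfl
  have hM' : M = ∅ := Finset.subset_empty.1 hMS.2
  subst hM'
  apply hz.1
  rw [← e1, hel]
  unfold el
  simp only [Finset.prod_empty, mul_one]
  exact Pool.Agent.N883.FF.isUnit_w.pow _

variable {K : Type} [Field K] [NumberField K]

/-- **The criterion.** -/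
theorem cr_of_tri [IsCyclotomicExtension {3} ℚ K] (j : Ei ≃+* 𝓞 K)
    (hj : ∀ z : Ei, Algebra.norm ℤ (j z) = nr z) {D : Ei} (hD : CFam D) (hl : lam ∣ D)
    (h : Tri (j D)) : CrE D := by
  obtain ⟨b, a, z, ha, hz, rfl⟩ := dec hD
  obtain ⟨i, M, S, hMS, hne, rfl⟩ := fam_pair hz
  have ha0 : a ≠ 0 := by
    rintro rfl
    rw [pow_zero, one_mul, (sg_unit b).dvd_mul_left] at hl
    exact Pool.Agent.D0H10.KH.fam_lam hz hl
  have hval : ((a : ZMod 3)).val = a := ZMod.val_natCast_of_lt ha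
  have e1 : sg b * (lam ^ a * (w ^ i.val * el M S)) = sg b * Del (a : ZMod 3) i M S := by
    unfold Del
    rw [hval]
  have h1 : Tri (j (Del (a : ZMod 3) i M S)) := by
    rw [e1] at h
    cases b
    · have e2 : sg false * Del (a : ZMod 3) i M S = -Del (a : ZMod 3) i M S := by
        unfold sg
        rw [if_neg (by decide)]
        ring
      rw [e2, tri_neg j hz] at h
      exact h
    · have e2 : sg true * Del (a : ZMod 3) i M S = Del (a : ZMod 3) i M S := by
        unfold sg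
        rw [if_pos rfl]
        ring
      rwa [e2] at h
  have h2 : GG (a : ZMod 3) i M S := (t_ALL.2.2.2.2.2.2.2.2.2 K j hj _ _ _ _ hMS hne).1 h1
  have haz : (a : ZMod 3) ≠ 0 := by
    intro h0
    apply ha0
    rw [← hval, h0, ZMod.val_zero]
  have h3 := gdS_of_GG haz h2
  obtain ⟨n, π, hdt, hel, hinj, himg⟩ := datt hMS hne
  exact ⟨b, a, _, ha, hz, rfl, i, el M S, rfl, n, π, _, hdt, hel, (gdS_ker hinj himg _).1 h3⟩

/-- from the family to the criterion -/
theorem cru_of_tri [IsCyclotomicExtension {3} ℚ K] (j : Ei ≃+* 𝓞 K)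
    (hj : ∀ z : Ei, Algebra.norm ℤ (j z) = nr z) {v D D' c d : Ei} (hc : c ≠ 0) (hd : d ≠ 0)
    (hD' : CFam D') (heq : D' * c ^ 3 = v * D * d ^ 3) (h : Tri (j D')) (hl : lam ∣ D') :
    CrU (v * D) := by
  obtain ⟨n, u, π, e, h1, h2, h3, h4, h5, h6⟩ := crE_data (cr_of_tri j hj hD' hl h)
  exact ⟨D', d, c, n, u, π, e, hd, hc, heq.symm, ⟨h1, h2, h3, h4, h5⟩, h6⟩

/-- the valuation at `lam` -/
theorem lam_dvd {v D D' c d : Ei} {a : ℕ} (ha : a = 1 ∨ a = 2) (hc : c ≠ 0) (hd : d ≠ 0)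
    (hv : ¬ lam ∣ v) (hD : lam ^ a ∣ D ∧ ¬ lam ^ (a + 1) ∣ D)
    (heq : D' * c ^ 3 = v * D * d ^ 3) : lam ∣ D' := by
  by_contra hl
  have h0 : D ≠ 0 := by
    rintro rfl
    exact hD.2 (dvd_zero _)
  have hfin : ∀ x : Ei, x ≠ 0 → FiniteMultiplicity lam x := fun x hx =>
    FiniteMultiplicity.of_prime_left prime_lam hx
  have hv0 : v ≠ 0 := by
    rintro rfl
    exact hv (dvd_zero _)
  have hD'0 : D' ≠ 0 := by
    rintro rfl
    exact hl (dvd_zero _)
  have e1 : emultiplicity lam (D' * c ^ 3) = 3 * emultiplicity lam c := by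
    rw [emultiplicity_mul prime_lam, emultiplicity_pow prime_lam, emultiplicity_eq_zero.2 hl,
      zero_add]
    norm_num
  have e2 : emultiplicity lam (v * D * d ^ 3) = a + 3 * emultiplicity lam d := by
    rw [emultiplicity_mul prime_lam, emultiplicity_mul prime_lam, emultiplicity_pow prime_lam,
      emultiplicity_eq_zero.2 hv, zero_add, emultiplicity_eq_coe.2 hD]
    norm_num
  rw [heq, e2, (hfin c hc).emultiplicity_eq_multiplicity,
    (hfin d hd).emultiplicity_eq_multiplicity] at e1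
  have e3 : a + 3 * multiplicity lam d = 3 * multiplicity lam c := by exact_mod_cast e1
  rcases ha with rfl | rfl <;> omega

end Pool.Agent.D0H69.SM
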